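import Pool.Agent.Lib.MP_bc213e_ag.KL.P.JC

/-! Jacobians of arbitrary elements in terms of Jacobians of generators. -/

namespace Pool.Agent.Lib.MP_bc213e_ag.KL

open Pool.Agent.Lib.MP_bc213e_ag.DC (Jac)

variable {κ A σ N : Type} [CommRing κ] [Fintype σ] [DecidableEq σ] [Fintype N]

/-- Multilinearity of the determinant (`MultilinearMap.map_sum`, `Matrix.detRowAlternating`). -/
theorem Jac_sum [CommRing A] [Algebra κ A] (D : σ → Derivation κ A A) (t : N → A) (u : σ → A)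
    (y : σ → N → A) (h : ∀ a l, D a (u l) = ∑ i, y l i * D a (t i)) :
    Jac D u = ∑ s : σ → N, (∏ l, y l (s l)) * Jac D (t ∘ s) := by
  simp only [Jac, Matrix.det_apply', Matrix.of_apply, h, Finset.prod_univ_sum,
    Fintype.piFinset_univ, Finset.mul_sum, Finset.prod_mul_distrib, Function.comp_apply]
  rw [Finset.sum_comm]
  exact Finset.sum_congr rfl fun s _ => Finset.sum_congr rfl fun g _ => mul_left_comm _ _ _

/-- `O` is a subring that contains `κ[t]`, and `f = a / s` with `a, s ∈ κ[t]`, `s⁻¹ ∈ O`.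
Sketch: `der_aeval`, `D f = s⁻¹ * (D a - f * D s)`. -/
theorem exists_der_coeff [Field A] [Algebra κ A] (t : N → A) (O : Subring A)
    (hO : ∀ a ∈ Algebra.adjoin κ (Set.range t), a ∈ O) {f s : A} (hf : f ∈ O)
    (hs : s ∈ Algebra.adjoin κ (Set.range t)) (h0 : s ≠ 0) (h1 : s⁻¹ ∈ O)
    (h2 : s * f ∈ Algebra.adjoin κ (Set.range t)) :
    ∃ y : N → A, (∀ i, y i ∈ O) ∧ ∀ D : Derivation κ A A, D f = ∑ i, y i * D (t i) := by
  rw [Algebra.adjoin_range_eq_range_aeval] at hO hs h2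
  obtain ⟨P, hP⟩ := hs
  obtain ⟨Q, hQ⟩ := h2
  refine ⟨fun i => s⁻¹ * (MvPolynomial.aeval t (MvPolynomial.pderiv i Q) -
    f * MvPolynomial.aeval t (MvPolynomial.pderiv i P)), fun i =>
    mul_mem h1 (sub_mem (hO _ ⟨_, rfl⟩) (mul_mem hf (hO _ ⟨_, rfl⟩))), fun D => ?_⟩
  have h3 := der_aeval D t Q
  rw [show MvPolynomial.aeval t Q = s * f from hQ, Derivation.leibniz, smul_eq_mul, smul_eq_mul,
    congrArg D (show s = MvPolynomial.aeval t P from hP.symm), der_aeval, ← eq_sub_iff_add_eq,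
    Finset.mul_sum, ← Finset.sum_sub_distrib] at h3
  rw [← inv_mul_cancel_left₀ h0 (D f), h3, Finset.mul_sum]
  exact Finset.sum_congr rfl fun l _ => by ring

/-- If the valuation ring `O` is a localisation of `κ[t]`, a tuple of generators has the largest
Jacobian. Sketch: `Jac_sum`, `exists_der_coeff`, `Valuation.map_sum_le`, `Finite.exists_max`
(if there is no map `σ → N`, then the sum is empty and `Jac D u₁ = 0`). -/
theorem exists_max_Jac [Field A] [Algebra κ A] (D : σ → Derivation κ A A) (t : N → A)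
    (O : ValuationSubring A) (hO : ∀ a ∈ Algebra.adjoin κ (Set.range t), a ∈ O)
    (loc : ∀ f ∈ O, ∃ s ∈ Algebra.adjoin κ (Set.range t), s ≠ 0 ∧ s⁻¹ ∈ O ∧
      s * f ∈ Algebra.adjoin κ (Set.range t))
    {u₁ : σ → A} (h : Jac D u₁ ≠ 0) :
    ∃ s : σ → N, Jac D (t ∘ s) ≠ 0 ∧ (∀ s' : σ → N,
      O.valuation (Jac D (t ∘ s')) ≤ O.valuation (Jac D (t ∘ s))) ∧
      ∀ u : σ → A, (∀ l, u l ∈ O) → O.valuation (Jac D u) ≤ O.valuation (Jac D (t ∘ s)) := by
  have h1 : ∀ f ∈ O, ∃ y : N → A, (∀ i, y i ∈ O) ∧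
      ∀ D : Derivation κ A A, D f = ∑ i, y i * D (t i) := fun f hf => by
    obtain ⟨s, a, b, c, d⟩ := loc f hf
    exact exists_der_coeff t O.toSubring hO hf a b c d
  have h2 : ∀ f : A, ∃ y : N → A, ∀ D : Derivation κ A A, D f = ∑ i, y i * D (t i) := fun f => by
    rcases O.mem_or_inv_mem f with hf | hf
    · exact (h1 f hf).imp fun y hy => hy.2
    obtain ⟨y, -, hy⟩ := h1 _ hf
    refine ⟨fun i => -f ^ 2 * y i, fun D => ?_⟩
    have h3 := D.leibniz_inv f⁻¹
    rw [inv_inv, hy D, smul_eq_mul, Finset.mul_sum] at h3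
    exact h3.trans (Finset.sum_congr rfl fun l _ => by ring)
  choose y hy using h2
  rw [Jac_sum D t u₁ (fun l => y (u₁ l)) fun a l => hy _ _] at h
  obtain ⟨s₀, -, h3⟩ := Finset.exists_ne_zero_of_sum_ne_zero h
  have : Nonempty (σ → N) := ⟨s₀⟩
  obtain ⟨s, hs⟩ := Finite.exists_max fun s : σ → N => O.valuation (Jac D (t ∘ s))
  refine ⟨s, fun e => right_ne_zero_of_mul h3 (O.valuation.zero_iff.1 (le_zero_iff.1 ?_)), hs,
    fun u hu => ?_⟩
  · exact (hs s₀).trans_eq (O.valuation.zero_iff.2 e)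
  choose z hz hz' using fun l => h1 _ (hu l)
  rw [Jac_sum D t u z fun a l => hz' _ _]
  refine O.valuation.map_sum_le fun s' _ => ?_
  rw [map_mul]
  exact (mul_le_of_le_one_left' ((O.valuation_le_one_iff _).2 (prod_mem fun l _ => hz _ _))).trans
    (hs s')

end Pool.Agent.Lib.MP_bc213e_ag.KL
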