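import Mathlib

/-! Residue fields of valuations. -/

namespace Pool.Agent.Lib.MP_bc213e_ag.KL

open MvPolynomial

variable {κ F : Type} [Field κ] [Field F] [Algebra κ F]

/-- Elements with algebraically independent residues together with an element of the maximal ideal
are algebraically independent. Sketch: in `∑ i, a i (u) * π ^ i` the nonzero terms have different
values `v π ^ i` (`AlgebraicIndependent.option_iff`, `Valuation.map_sum_eq_of_lt`). -/
theorem algInd_option {σ : Type} (O : ValuationSubring F) {u : σ → F}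
    (hu : ∀ P : MvPolynomial σ κ, P ≠ 0 → O.valuation (aeval u P) = 1) {π : F} (h0 : π ≠ 0)
    (h1 : O.valuation π < 1) : AlgebraicIndependent κ fun o : Option σ => o.elim π u := by
  classical
  refine AlgebraicIndependent.option_iff.2 ⟨algebraicIndependent_iff.2 fun P e => ?_, ?_⟩
  · by_contra c
    simpa [e] using hu P c
  rintro ⟨f, hf, e⟩
  have k : ∀ i ∈ f.support, O.valuation (algebraMap _ F (f.coeff i) * π ^ i) =
      O.valuation π ^ i := fun i hi => by
    obtain ⟨P, hP⟩ := (Algebra.adjoin_range_eq_range_aeval κ u).le (f.coeff i).2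
    have h2 : algebraMap _ F (f.coeff i) = aeval u P := hP.symm
    rw [map_mul, map_pow, h2, hu P, one_mul]
    rintro rfl
    exact Polynomial.mem_support_iff.1 hi (Subtype.ext (by simpa using hP.symm))
  have hp : 0 < O.valuation π := (Valuation.pos_iff _).2 h0
  have hj := Polynomial.natTrailingDegree_mem_support_of_nonzero hf
  have := O.valuation.map_sum_eq_of_lt (f := fun i => algebraMap _ F (f.coeff i) * π ^ i) hj
    fun i hi => by
      rw [Finset.mem_sdiff, Finset.mem_singleton] at hi
      rw [k i hi.1, k _ hj]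
      exact pow_lt_pow_right_of_lt_one₀ hp h1
        (lt_of_le_of_ne (Polynomial.natTrailingDegree_le_of_mem_supp i hi.1) (Ne.symm hi.2))
  rw [Polynomial.aeval_def, Polynomial.eval₂_eq_sum, Polynomial.sum_def] at e
  rw [e, k _ hj, map_zero] at this
  exact (pow_pos hp _).ne this

/-- The residues of `n` elements of a nontrivial valuation ring are algebraically dependent if the
transcendence degree is at most `n`. -/
theorem res_dep {σ : Type} [Fintype σ] (O : ValuationSubring F)
    (hκ : ∀ c : κ, algebraMap κ F c ∈ O) (hO : O ≠ ⊤)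
    (hn : Algebra.trdeg κ F ≤ Fintype.card σ) (u : σ → F) (hu : ∀ i, u i ∈ O) :
    ∃ P : MvPolynomial σ κ, P ≠ 0 ∧ O.valuation (aeval u P) < 1 := by
  by_contra c
  have m : ∀ P : MvPolynomial σ κ, aeval u P ∈ O := fun P => by
    induction P using MvPolynomial.induction_on with
    | C a => simpa using hκ a
    | add p q hp hq => rw [map_add]; exact O.add_mem _ _ hp hq
    | mul_X p i hp => rw [map_mul, aeval_X]; exact O.mul_mem _ _ hp (hu i)
  obtain ⟨x, hx⟩ : ∃ x, x ∉ O := not_forall.1 fun h => hO (eq_top_iff.2 fun x _ => h x)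
  have x0 : x ≠ 0 := fun e => hx (e ▸ O.zero_mem)
  have h := (algInd_option (κ := κ) O (u := u) (fun P hP => le_antisymm
    ((O.valuation_le_one_iff _).2 (m P)) (not_lt.1 fun e => c ⟨P, hP, e⟩)) (inv_ne_zero x0)
    (O.inv_mem_nonunits_iff.2 (Or.inr hx))).cardinalMk_le_trdeg.trans hn
  rw [Cardinal.mk_fintype, Fintype.card_option, Nat.cast_le] at h
  omega

end Pool.Agent.Lib.MP_bc213e_ag.KL
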