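import Pool.Agent.Lib.MP_bc213e_ag.DC.Car

/-! The Cartier operator on a subfield with a `p`-basis. -/

namespace Pool.Agent.Lib.MP_bc213e_ag.KL

open Pool.Agent.Lib.MP_bc213e_ag.DC

theorem sub_pull {κ F L : Type} [CommRing κ] [Field F] [Field L] [Algebra κ F] [Algebra κ L]
    (β : F →ₐ[κ] L) (D : Derivation κ L L) (h : ∀ f, D (β f) ∈ β.range) :
    ∃ d : Derivation κ F F, ∀ f, β (d f) = D (β f) := by
  have hβ : Function.Injective β := (β : F →+* L).injective
  choose d hd using h
  replace hd : ∀ f, β (d f) = D (β f) := hd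
  refine ⟨Derivation.mk'
    { toFun := d
      map_add' := fun f g => hβ (by rw [map_add, hd, hd, hd, map_add, map_add])
      map_smul' := fun r f => hβ (by
        rw [RingHom.id_apply, map_smul, hd, hd, map_smul, Derivation.map_smul]) }
    fun f g => hβ ?_, hd⟩
  change β (d (f * g)) = β (f • d g + g • d f)
  rw [hd, map_mul, Derivation.leibniz, map_add, smul_eq_mul, smul_eq_mul, smul_eq_mul,
    smul_eq_mul, map_mul, map_mul, hd, hd]

theorem sub_pull_add {κ F L : Type} [CommRing κ] [Field F] [Field L] [Algebra κ F] [Algebra κ L]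
    (β : F →ₐ[κ] L) (P : L → L) (hP : ∀ a b, P (a + b) = P a + P b) (h : ∀ f, P (β f) ∈ β.range) :
    ∃ d : F →+ F, ∀ f, β (d f) = P (β f) := by
  have hβ : Function.Injective β := (β : F →+* L).injective
  choose d hd using h
  replace hd : ∀ f, β (d f) = P (β f) := hd
  exact ⟨AddMonoidHom.mk' d fun f g => hβ (by rw [map_add, hd, hd, hd, map_add, hP]), hd⟩

theorem sub_der_mem {κ F L ι : Type} [CommRing κ] [Field F] [Field L] [Algebra κ F]
    [Algebra κ L] [Fintype ι] [DecidableEq ι] {p : ℕ} [CharP L p] (β : F →ₐ[κ] L) (x : ι → F)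
    (gen : ∀ f : F, ∃ g : (ι → Fin p) → F, f = ∑ γ, g γ ^ p * ∏ i, x i ^ (γ i : ℕ))
    (D : Derivation κ L L) (h : ∀ l, D (β (x l)) ∈ β.range) (f : F) : D (β f) ∈ β.range := by
  have mul : ∀ a b : F, D (β a) ∈ β.range → D (β b) ∈ β.range → D (β (a * b)) ∈ β.range :=
    fun a b ha hb => by
      rw [map_mul, Derivation.leibniz, smul_eq_mul, smul_eq_mul]
      exact add_mem (mul_mem (β.mem_range_self a) hb) (mul_mem (β.mem_range_self b) ha)
  have one : D (β 1) ∈ β.range := by
    rw [map_one, D.map_one_eq_zero]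
    exact zero_mem _
  obtain ⟨g, rfl⟩ := gen f
  rw [map_sum, map_sum]
  refine sum_mem fun γ _ => mul _ _ ?_ ?_
  · rw [map_pow, car_pow]
    exact zero_mem _
  · refine Finset.prod_induction _ (fun a => D (β a) ∈ β.range) mul one fun l _ => ?_
    induction (γ l : ℕ) with
    | zero => rwa [pow_zero]
    | succ n ih => exact pow_succ (x l) n ▸ mul _ _ ih (h l)

/-- Sketch: let `Y = β ∘ x`, `J = Jac c.der Y`. On `L` put `D' i z = Jac (update Y i z) / J`
(`DC.car_exD`) and `Φ' z = c.Φ (z * J) / J`. Then `D' i (Y l) = δ`, `D' i` kills `p`-th powers,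
`Φ' (∏ Y ^ γ)` is `1` or `0` for `γ < p` (`lcar_one`, `lcar_zero`), so both preserve the range of
`β`; pull back along the injective `β`. `Φ_der` is `Car.Φ_Jac`. The matrix `(D' i (z l))` is
`J⁻¹ • adjugate * (c.der a (z l))` (`DC.car_exp`), which gives the formula for `Jac`
(`Matrix.det_adjugate`, or: `c.der a z = ∑ i, c.der a (Y i) * D' i z`). -/
theorem Car.exists_sub {κ F L ι : Type} [CommRing κ] [Field F] [Field L] [Algebra κ F]
    [Algebra κ L] [Fintype ι] [DecidableEq ι] {p : ℕ} [Fact p.Prime] [CharP L p]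
    (c : Car κ L ι p) (β : F →ₐ[κ] L) (x : ι → F) (hJ : Jac c.der (β ∘ x) ≠ 0)
    (gen : ∀ f : F, ∃ g : (ι → Fin p) → F, f = ∑ γ, g γ ^ p * ∏ i, x i ^ (γ i : ℕ)) :
    ∃ c' : Car κ F ι p, c'.T = x ∧
      (∀ u : ι → F, β (Jac c'.der u) * Jac c.der (β ∘ x) = Jac c.der (β ∘ u)) ∧
      ∀ f, β (c'.Φ f) * Jac c.der (β ∘ x) = c.Φ (β f * Jac c.der (β ∘ x)) := by
  have hβ : Function.Injective β := (β : F →+* L).injective
  set Y := β ∘ x with hY
  set J := Jac c.der Y with hJ'
  choose D0 hD0 using car_exD c.der Y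
  have hDY : ∀ i l, (J⁻¹ • D0 i) (β (x l)) = if i = l then 1 else 0 := fun i l => by
    rw [Derivation.smul_apply, smul_eq_mul, ← hD0]
    split_ifs with e
    · rw [← e, show β (x i) = Y i from rfl, Function.update_eq_self, inv_mul_cancel₀ hJ]
    · rw [car_eq _ e (by rw [Function.update_self, Function.update_of_ne (Ne.symm e)]; rfl),
        mul_zero]
  choose d hd using fun i => sub_pull β (J⁻¹ • D0 i) (sub_der_mem β x gen _ fun l => by
    rw [hDY]
    split_ifs
    exacts [one_mem _, zero_mem _])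
  obtain ⟨P, hP⟩ := sub_pull_add β (fun z => c.Φ (z * J) * J⁻¹)
    (fun a b => by rw [add_mul, map_add, add_mul]) fun f => by
      obtain ⟨g, rfl⟩ := gen f
      simp only [map_sum, Finset.sum_mul, map_mul, map_pow, map_prod]
      refine sum_mem fun γ _ => ?_
      rw [mul_assoc, c.Φ_mul, mul_assoc]
      refine mul_mem (β.mem_range_self _) ?_
      by_cases e : ∀ i, (γ i : ℕ) = p - 1
      · simp only [e]
        rw [show c.Φ ((∏ i, β (x i) ^ (p - 1)) * J) = J from c.lcar_one Y, mul_inv_cancel₀ hJ]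
        exact one_mem _
      · obtain ⟨i, hi⟩ := not_forall.1 e
        rw [show c.Φ ((∏ i, β (x i) ^ (γ i : ℕ)) * J) = 0 from
          c.lcar_zero Y (fun i => γ i) (i := i) (Nat.not_dvd_of_pos_of_lt (Nat.succ_pos _) (by
            have := (γ i).2
            omega)), zero_mul]
        exact zero_mem _
  refine ⟨⟨d, x, P, fun i j => hβ ?_, fun f g => hβ ?_, fun i f => hβ ?_, hβ ?_,
    ι → Fin p, inferInstance, fun γ => ∏ i, x i ^ (γ i : ℕ), fun γ => prod_mem fun i _ =>
      pow_mem (Subring.subset_closure (Set.mem_range_self i)) _, gen⟩, rfl, fun u => ?_, fun f => ?_⟩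
  · rw [hd, hDY, apply_ite β, map_one, map_zero]
  · rw [hP, map_mul β, map_mul β, hP, map_pow, mul_assoc (β f ^ p), c.Φ_mul, mul_assoc]
  · rw [hP, hd, Derivation.smul_apply, smul_eq_mul, mul_right_comm, inv_mul_cancel₀ hJ, one_mul,
      ← hD0, c.Φ_Jac, zero_mul, map_zero]
  · rw [hP, map_prod, map_one]
    simp only [map_pow]
    rw [show c.Φ ((∏ i, β (x i) ^ (p - 1)) * J) = J from c.lcar_one Y, mul_inv_cancel₀ hJ]
  · change (β : F →+* L) (Matrix.det _) * Matrix.det _ = Matrix.det _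
    rw [RingHom.map_det, mul_comm, ← Matrix.det_mul]
    have e : (β : F →+* L).mapMatrix (Matrix.of fun a b => d a (u b)) =
        J⁻¹ • ((Matrix.of fun a b => c.der a (Y b)).adjugate *
          Matrix.of fun a b => c.der a ((β ∘ u) b)) := by
      ext a b
      change β (d a (u b)) = J⁻¹ * _
      rw [hd, Derivation.smul_apply, smul_eq_mul, ← hD0, car_exp, Matrix.mul_apply]
      rfl
    rw [e, Matrix.mul_smul, ← mul_assoc, Matrix.mul_adjugate, Matrix.smul_mul, one_mul, smul_smul,
      show (Matrix.of fun a b => c.der a (Y b)).det = J from rfl, inv_mul_cancel₀ hJ, one_smul]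
  · change β (P f) * J = _
    rw [hP, mul_assoc, inv_mul_cancel₀ hJ, mul_one]

end Pool.Agent.Lib.MP_bc213e_ag.KL
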