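import Pool.Agent.Lib.MP_bc213e_ag.KL.P.CoreL
import Pool.Agent.Lib.MP_bc213e_ag.KL.P.Sub

/-! An F-pure pair has a Cartier operator without base point. -/

namespace Pool.Agent.Lib.MP_bc213e_ag.KL

open Pool.Agent.Lib.MP_4287a9_ag (SFat T1)
open Pool.Agent.Lib.MP_bc213e_ag.DC
open scoped NNReal

theorem core_ex {κ P L N σ : Type} [CommRing κ] [CommRing P] [Algebra κ P] [CommRing L]
    [Algebra κ L] [Fintype N] [Fintype σ] [DecidableEq σ] (D : σ → Derivation κ L L)
    (β : P →ₐ[κ] L) (t : N → P) (ht : Algebra.adjoin κ (Set.range t) = ⊤) (x : σ → P)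
    (hJ : Jac D (β ∘ x) ≠ 0) : ∃ s : σ → N, Jac D (fun l => β (t (s l))) ≠ 0 := by
  rw [Algebra.adjoin_range_eq_range_aeval] at ht
  choose Q hQ using fun l => show x l ∈ (MvPolynomial.aeval t).range from ht ▸ Algebra.mem_top
  rw [Jac_sum D (β ∘ t) _ (fun l i => MvPolynomial.aeval (β ∘ t) (MvPolynomial.pderiv i (Q l)))
    fun a l => by
      rw [← der_aeval, Function.comp_apply, ← hQ]
      exact congrArg _ (MvPolynomial.comp_aeval_apply _ _ _)] at hJ
  obtain ⟨s, -, hs⟩ := Finset.exists_ne_zero_of_sum_ne_zero hJ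
  exact ⟨s, right_ne_zero_of_mul hs⟩

theorem core_frac {κ P L N F : Type} [Field κ] [CommRing P] [IsDomain P] [Algebra κ P] [CommRing L]
    [IsDomain L] [Algebra κ L] [Fintype N] [Field F] [Algebra κ F] [Algebra P F]
    [IsScalarTower κ P F] [IsFractionRing P F] {φ p : ℕ} [Fact p.Prime] [CharP κ p]
    (c : Car κ L (Fin φ) p) (β : P →ₐ[κ] L) (hβ : Function.Injective β) (t : N → P)
    (ht : Algebra.adjoin κ (Set.range t) = ⊤) (x : Fin φ → P)
    (hJ : Jac c.der (β ∘ x) ≠ 0) {c₁ : P} (h1 : c₁ ≠ 0) (hT : T1 p c₁ x) (θ : L) (hθ : θ ≠ 0)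
    {r n₀ : ℕ} (hp : p = r * n₀ + 1)
    (δ : (Fin φ → N) → P) (hδ : ∀ s, β (δ s) = θ * Jac c.der (fun l => β (t (s l))) ^ r) :
    ∃ (c' : Car κ F (Fin φ) p) (θ' : F), θ' ≠ 0 ∧ (∀ s, algebraMap P F (δ s) =
      θ' * Jac c'.der (fun l => algebraMap P F (t (s l))) ^ r) ∧
      ∀ z y, c.Φ (θ ^ n₀ * β z) = β y →
        c'.Φ (θ' ^ n₀ * algebraMap P F z) = algebraMap P F y := by
  have i1 : CharP L p := charP_of_injective_algebraMap (algebraMap κ L).injective p
  have i2 : CharP (FractionRing L) p :=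
    charP_of_injective_algebraMap (algebraMap κ (FractionRing L)).injective p
  have i3 := IsFractionRing.injective L (FractionRing L)
  have i4 := IsFractionRing.injective P F
  have i5 : Function.Injective ((IsScalarTower.toAlgHom κ L (FractionRing L)).comp β) := i3.comp hβ
  obtain ⟨β', e1⟩ : ∃ β' : F →ₐ[κ] FractionRing L,
      ∀ a, β' (algebraMap P F a) = algebraMap L _ (β a) :=
    ⟨IsFractionRing.liftAlgHom i5, fun a => IsFractionRing.lift_algebraMap i5 a⟩
  obtain ⟨c₂, e2, e3⟩ := Car.exists_frac (F := FractionRing L) c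
  have e4 : ∀ u : Fin φ → P, Jac c₂.der (β' ∘ fun l => algebraMap P F (u l)) =
      algebraMap L _ (Jac c.der fun l => β (u l)) := fun u => by
    rw [Jac, Jac, RingHom.map_det]
    congr 1
    ext a b
    exact (congrArg _ (e1 _)).trans (e2 _ _)
  have hJ' := (map_ne_zero_iff _ i3).2 hJ
  obtain ⟨c', -, e5, e6⟩ := Car.exists_sub c₂ β' (fun l => algebraMap P F (x l))
    (e4 x ▸ hJ') fun f => by
      obtain ⟨a, s, hs, rfl⟩ := IsFractionRing.div_surjective P f
      obtain ⟨g, hg⟩ := hT (a * s ^ (r * n₀))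
      have k1 := (map_ne_zero_iff _ i4).2 (nonZeroDivisors.ne_zero hs)
      have k2 := (map_ne_zero_iff _ i4).2 h1
      have k3 := congrArg (algebraMap P F) hg
      simp only [map_mul, map_pow, map_sum, map_prod] at k3
      refine ⟨fun γ => algebraMap P F (g γ) / (algebraMap P F s * algebraMap P F c₁), ?_⟩
      simp only [div_pow, div_mul_eq_mul_div, ← Finset.sum_div, ← k3]
      rw [mul_pow, hp]
      field_simp
      ring
  rw [e4] at e5 e6
  obtain ⟨J, hJ', e5, e6⟩ : ∃ J : FractionRing L, J ≠ 0 ∧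
      (∀ u, β' (Jac c'.der u) * J = Jac c₂.der (β' ∘ u)) ∧
      ∀ f, β' (c'.Φ f) * J = c₂.Φ (β' f * J) := ⟨_, hJ', e5, e6⟩
  have e7 : ∀ s, β' (algebraMap P F (δ s)) = algebraMap L _ θ * J ^ r *
      β' (Jac c'.der fun l => algebraMap P F (t (s l))) ^ r := fun s => by
    rw [e1, hδ, map_mul, map_pow, ← e4, ← e5]
    ring
  obtain ⟨s₀, hs⟩ := core_ex c.der β t ht x hJ
  have h2 := (map_ne_zero_iff _ i3).2 hs
  rw [← e4, ← e5] at h2
  obtain ⟨θ', e8⟩ : ∃ θ', β' θ' = algebraMap L _ θ * J ^ r :=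
    ⟨algebraMap P F (δ s₀) / Jac c'.der (fun l => algebraMap P F (t (s₀ l))) ^ r, by
      rw [map_div₀, map_pow, e7, mul_div_cancel_right₀ _ (pow_ne_zero _ (left_ne_zero_of_mul h2))]⟩
  have i6 : Function.Injective β' := β'.injective
  refine ⟨c', θ', fun h => ?_, fun s => i6 ?_, fun z y h => i6 (mul_right_cancel₀ hJ' ?_)⟩
  · rw [h, map_zero] at e8
    exact mul_ne_zero ((map_ne_zero_iff _ i3).2 hθ) (pow_ne_zero _ hJ') e8.symm
  · rw [e7, map_mul, map_pow, e8]
  · rw [e6, e1, ← h, ← e3, mul_comm (c₂.Φ _) J, ← c₂.Φ_mul]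
    congr 1
    rw [map_mul, map_pow, e8, e1, map_mul, map_pow, congrArg (J ^ ·) hp]
    ring

theorem core {κ P L N : Type} [Field κ] [PerfectField κ] [CommRing P] [Algebra κ P] [CommRing L]
    [IsDomain L] [Algebra κ L] [Fintype N] {φ p : ℕ} [Fact p.Prime] [CharP κ p]
    (c : Car κ L (Fin φ) p) (β : P →ₐ[κ] L) (hβ : Function.Injective β) (t : N → P)
    (ht : Algebra.adjoin κ (Set.range t) = ⊤) (x : Fin φ → P)
    (hx : ∀ a : P, IsIntegral (Algebra.adjoin κ (Set.range x)) a)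
    (hJ : Jac c.der (β ∘ x) ≠ 0) {c₁ : P} (h1 : c₁ ≠ 0) (hT : T1 p c₁ x) (θ : L) (hθ : θ ≠ 0)
    {r n₀ q n : ℕ} (hr : 0 < r) (hq : 0 < q) (hp : p = r * n₀ + 1) (hp' : p = q * n + 1)
    (δ : (Fin φ → N) → P) (hδ : ∀ s, β (δ s) = θ * Jac c.der (fun l => β (t (s l))) ^ r)
    (w : P) (m : Ideal P) [m.IsPrime]
    (sf : SFat p m (Ideal.span (Set.range δ)) r (Ideal.span {w}) (q : ℝ≥0)⁻¹) :
    ∃ γ : N → ℕ, (∀ i, γ i < p) ∧ ∀ y ∈ m,
      c.Φ (θ ^ n₀ * (β w ^ n * ∏ i, β (t i) ^ γ i)) ≠ β y := by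
  have i1 : IsDomain P := hβ.isDomain β
  have i2 : Algebra.FiniteType κ P := ⟨Subalgebra.fg_def.2 ⟨_, Set.finite_range t, ht⟩⟩
  have i3 := Algebra.FiniteType.isNoetherianRing κ P
  obtain ⟨R, _, _, _, _, _, sf⟩ : ∃ (R : Type) (_ : CommRing R) (_ : Algebra P R) (_ : Algebra κ R)
      (_ : IsScalarTower κ P R) (_ : IsLocalization.AtPrime R m), MP_4287a9_ag.SFRi p
        ((Ideal.span (Set.range δ)).map (algebraMap P R)) r
        ((Ideal.span {w}).map (algebraMap P R)) (q : ℝ≥0)⁻¹ :=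
    ⟨Localization.AtPrime m, _, _, _, inferInstance, inferInstance, sf⟩
  have j1 := IsLocalization.AtPrime.isLocalRing R m
  have j2 := IsLocalization.isDomain_of_atPrime R m
  have j3 := IsLocalization.isNoetherianRing m.primeCompl R i3
  have i4 : Function.Injective (algebraMap P R) :=
    IsLocalization.injective R m.primeCompl_le_nonZeroDivisors
  have i5 : FaithfulSMul P (FractionRing R) := (faithfulSMul_iff_algebraMap_injective _ _).2
    ((IsFractionRing.injective R (FractionRing R)).comp i4)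
  have e0 := IsScalarTower.algebraMap_apply P R (FractionRing R)
  have i6 : IsFractionRing P (FractionRing R) := .of_field _ _ fun z => by
    obtain ⟨a, b, -, rfl⟩ := IsFractionRing.div_surjective R z
    obtain ⟨⟨a, s⟩, rfl⟩ := IsLocalization.mk'_surjective m.primeCompl a
    obtain ⟨⟨b, s'⟩, rfl⟩ := IsLocalization.mk'_surjective m.primeCompl b
    refine ⟨a * s', b * s, ?_⟩
    have k : ∀ (a : P) (s : m.primeCompl), algebraMap R (FractionRing R) (IsLocalization.mk' R a s) =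
        algebraMap P _ a / algebraMap P _ s := fun a s => by
      rw [eq_div_iff ((map_ne_zero_iff _ (FaithfulSMul.algebraMap_injective _ _)).2
        (nonZeroDivisors.ne_zero (m.primeCompl_le_nonZeroDivisors s.2))), e0, e0, ← map_mul,
        IsLocalization.mk'_spec]
    rw [k, k, div_div_div_eq, map_mul, map_mul, mul_comm (algebraMap P _ b)]
  obtain ⟨c', θ', h2, h3, h4⟩ := core_frac (F := FractionRing R) c β hβ t ht x hJ h1 hT θ hθ hp δ hδ
  have h5 : ∀ a, algebraMap P R a ∈ Algebra.adjoin κ (Set.range (algebraMap P R ∘ t)) := fun a => by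
    rw [Set.range_comp]
    exact (Algebra.adjoin_image κ (IsScalarTower.toAlgHom κ P R) _).ge ⟨a, ht ▸ Algebra.mem_top, rfl⟩
  obtain ⟨γ, g1, g2⟩ := core_loc c' (by
      have : Algebra.IsAlgebraic (Algebra.adjoin κ (Set.range x)) P := ⟨fun a => (hx a).isAlgebraic⟩
      rw [← trdeg_add_eq κ P, trdeg_eq_zero_iff.2 (IsLocalization.isAlgebraic _ (nonZeroDivisors P)),
        add_zero]
      exact (Algebra.IsAlgebraic.trdeg_le_cardinalMk κ (Set.range x)).trans
        (Cardinal.mk_range_le.trans (Cardinal.mk_fintype _).le))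
    (algebraMap P R ∘ t) (fun y => by
      obtain ⟨⟨a, s⟩, rfl⟩ := IsLocalization.mk'_surjective m.primeCompl y
      exact ⟨_, h5 s, IsLocalization.map_units R s, by rw [IsLocalization.mk'_spec']; exact h5 a⟩)
    h2 hr hq hp hp' (algebraMap P R ∘ δ) h3 (algebraMap P R w) (by
      simpa only [Ideal.map_span, Set.image_singleton, ← Set.range_comp] using sf)
  refine ⟨γ, g1, fun y hy h => g2 _ ((IsLocalization.AtPrime.to_map_mem_maximal_iff R m y).2 hy) ?_⟩
  have := h4 (w ^ n * ∏ i, t i ^ γ i) y (by simpa only [map_mul, map_pow, map_prod] using h)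
  simpa only [e0, map_mul, map_pow, map_prod, Function.comp_apply] using this

end Pool.Agent.Lib.MP_bc213e_ag.KL
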