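import Pool.Agent.Lib.MP_bc213e_ag.DC.Car

/-! The Cartier operator on the field of fractions. -/

namespace Pool.Agent.Lib.MP_bc213e_ag.KL

open Pool.Agent.Lib.MP_bc213e_ag.DC

theorem frac_rep {R F : Type} [CommRing R] [IsDomain R] [Field F] [Algebra R F]
    [IsFractionRing R F] {q : ℕ} (hq : 0 < q) (y : F) :
    ∃ a s : R, algebraMap R F s ≠ 0 ∧ algebraMap R F s ^ q * y = algebraMap R F a := by
  obtain ⟨c, d, hd, rfl⟩ := IsFractionRing.div_surjective (A := R) y
  have d0 : algebraMap R F d ≠ 0 :=
    (map_ne_zero_iff _ (IsFractionRing.injective R F)).2 (nonZeroDivisors.ne_zero hd)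
  obtain ⟨r, rfl⟩ := Nat.exists_eq_succ_of_ne_zero hq.ne'
  refine ⟨d ^ r * c, d, d0, ?_⟩
  rw [map_mul, map_pow, pow_succ, mul_assoc, mul_div_cancel₀ _ d0]

/-- A `q⁻¹`-linear map extends to the field of fractions: `a / s ↦ ψ (a * s ^ (q - 1)) / s`. -/
theorem exists_frac_lin {R F : Type} [CommRing R] [IsDomain R] [Field F] [Algebra R F]
    [IsFractionRing R F] {q : ℕ} (hq : 0 < q) (ψ : R →+ R)
    (h : ∀ w y, ψ (w ^ q * y) = w * ψ y) :
    ∃ ψ' : F →+ F, (∀ w y, ψ' (w ^ q * y) = w * ψ' y) ∧
      ∀ y, ψ' (algebraMap R F y) = algebraMap R F (ψ y) := by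
  have inj := IsFractionRing.injective R F
  choose a s hs he using frac_rep (R := R) (F := F) hq
  have key : ∀ (y : F) (b t : R), algebraMap R F t ^ q * y = algebraMap R F b →
      algebraMap R F t * (algebraMap R F (ψ (a y)) / algebraMap R F (s y)) = algebraMap R F (ψ b) := by
    intro y b t e
    have e1 : t ^ q * a y = s y ^ q * b := inj (by
      rw [map_mul, map_mul, map_pow, map_pow, ← e, ← he y]
      ring)
    have e2 := congrArg (fun z => algebraMap R F (ψ z)) e1
    simp only [h, map_mul] at e2
    rw [← mul_div_assoc, e2, mul_div_cancel_left₀ _ (hs y)]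
  refine ⟨AddMonoidHom.mk' (fun y => algebraMap R F (ψ (a y)) / algebraMap R F (s y)) fun y z => ?_,
    fun w y => ?_, fun y => ?_⟩
  · have k := key (y + z) (s z ^ q * a y + s y ^ q * a z) (s y * s z) (by
      simp only [map_add, map_mul, map_pow]
      rw [← he y, ← he z]
      ring)
    simp only [map_add, h, map_mul] at k
    refine mul_left_cancel₀ (mul_ne_zero (hs y) (hs z)) ?_
    rw [k]
    field_simp [hs y, hs z]
  · obtain ⟨c, d, hd, rfl⟩ := IsFractionRing.div_surjective (A := R) w
    have d0 : algebraMap R F d ≠ 0 := (map_ne_zero_iff _ inj).2 (nonZeroDivisors.ne_zero hd)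
    have k := key ((algebraMap R F c / algebraMap R F d) ^ q * y) (c ^ q * a y) (d * s y) (by
      simp only [map_mul, map_pow]
      rw [← he y, mul_pow, div_pow]
      field_simp)
    simp only [h, map_mul] at k
    refine mul_left_cancel₀ (mul_ne_zero d0 (hs y)) ?_
    rw [AddMonoidHom.mk'_apply, k]
    field_simp [hs y]
  · simpa using key (algebraMap R F y) y 1 (by simp)

/-- A derivation extends to the field of fractions. Sketch: lift the ring homomorphism
`a ↦ a + D a ε` to `TrivSqZeroExt F F` along `IsLocalization.lift` (compare `TCI.Der1`,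
`DA.Der`). -/
theorem exists_frac_der {κ R F : Type} [CommRing κ] [CommRing R] [IsDomain R] [Field F]
    [Algebra κ R] [Algebra R F] [Algebra κ F] [IsScalarTower κ R F] [IsFractionRing R F]
    (D : Derivation κ R R) :
    ∃ D' : Derivation κ F F, ∀ y, D' (algebraMap R F y) = algebraMap R F (D y) := by
  have inj := IsFractionRing.injective R F
  choose a s hs he using frac_rep (R := R) (F := F) Nat.one_pos
  simp only [pow_one] at he
  obtain ⟨d, hd⟩ : ∃ d : F → F, ∀ y, d y =
      (algebraMap R F (D (a y)) - y * algebraMap R F (D (s y))) / algebraMap R F (s y) := ⟨_, fun _ => rfl⟩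
  have key : ∀ (y : F) (b t : R), algebraMap R F t * y = algebraMap R F b →
      algebraMap R F t * d y = algebraMap R F (D b) - y * algebraMap R F (D t) := by
    intro y b t e
    have e1 : t * a y = s y * b := inj (by
      rw [map_mul, map_mul, ← e, ← he y]
      ring)
    have e2 := congrArg (fun z => algebraMap R F (D z)) e1
    simp only [Derivation.leibniz, smul_eq_mul, map_add, map_mul, ← e, ← he y] at e2
    rw [hd, ← mul_div_assoc, div_eq_iff (hs y)]
    linear_combination e2
  have k0 := fun y => key y (a y) (s y) (he y)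
  refine ⟨Derivation.mk' ⟨⟨d, fun y z => ?_⟩, fun c y => ?_⟩ fun y z => ?_, fun y => ?_⟩
  · have k := key (y + z) (s z * a y + s y * a z) (s y * s z) (by
      simp only [map_add, map_mul]
      rw [← he y, ← he z]
      ring)
    simp only [Derivation.leibniz, smul_eq_mul, map_add, map_mul, ← he y, ← he z] at k
    refine mul_left_cancel₀ (mul_ne_zero (hs y) (hs z)) ?_
    linear_combination k - algebraMap R F (s z) * k0 y - algebraMap R F (s y) * k0 z
  · have k := key (c • y) (c • a y) (s y) (by
      rw [mul_smul_comm, he, Algebra.smul_def, Algebra.smul_def, map_mul,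
        ← IsScalarTower.algebraMap_apply])
    rw [Derivation.map_smul, Algebra.smul_def c (D _), map_mul, ← IsScalarTower.algebraMap_apply] at k
    refine mul_left_cancel₀ (hs y) ?_
    show _ * d (c • y) = _ * (c • d y)
    rw [k, Algebra.smul_def, Algebra.smul_def]
    linear_combination -algebraMap κ F c * k0 y
  · have k := key (y * z) (a y * a z) (s y * s z) (by
      simp only [map_mul]
      rw [← he y, ← he z]
      ring)
    simp only [Derivation.leibniz, smul_eq_mul, map_add, map_mul, ← he y, ← he z] at k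
    refine mul_left_cancel₀ (mul_ne_zero (hs y) (hs z)) ?_
    show _ * d (y * z) = _ * (y * d z + z * d y)
    linear_combination k - algebraMap R F (s z) * z * k0 y - algebraMap R F (s y) * y * k0 z
  · simpa using key (algebraMap R F y) y 1 (by simp)

/-- Sketch: every element of `F` is `a / s ^ p`; `D' (a / s ^ p) = D a / s ^ p` (`DC.car_pow`). -/
theorem Car.exists_frac {κ R F ι : Type} [CommRing κ] [CommRing R] [IsDomain R] [Field F]
    [Algebra κ R] [Algebra R F] [Algebra κ F] [IsScalarTower κ R F] [IsFractionRing R F]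
    [Fintype ι] [DecidableEq ι] {p : ℕ} [Fact p.Prime] [CharP R p] (c : Car κ R ι p) :
    ∃ c' : Car κ F ι p, (∀ i y, c'.der i (algebraMap R F y) = algebraMap R F (c.der i y)) ∧
      ∀ y, c'.Φ (algebraMap R F y) = algebraMap R F (c.Φ y) := by
  have hp : 0 < p := (Fact.out : p.Prime).pos
  have : CharP F p := charP_of_injective_algebraMap (IsFractionRing.injective R F) p
  choose d hd using fun i => exists_frac_der (F := F) (c.der i)
  obtain ⟨Φ, h1, h2⟩ := exists_frac_lin (F := F) hp c.Φ c.Φ_mul
  have rep : ∀ y : F, ∃ (w : F) (a : R), y = w ^ p * algebraMap R F a := fun y => by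
    obtain ⟨a, s, hs, e⟩ := frac_rep (R := R) hp y
    exact ⟨(algebraMap R F s)⁻¹, a, by rw [← e, inv_pow, inv_mul_cancel_left₀ (pow_ne_zero _ hs)]⟩
  refine ⟨⟨d, fun i => algebraMap R F (c.T i), Φ, fun i j => ?_, h1, fun i f => ?_, ?_, ?_⟩, hd, h2⟩
  · rw [hd, c.der_T]
    split_ifs <;> simp
  · obtain ⟨w, a, rfl⟩ := rep f
    rw [Derivation.leibniz, car_pow, smul_zero, add_zero, smul_eq_mul, h1, hd, h2, c.Φ_der, map_zero,
      mul_zero]
  · simp only [← map_pow, ← map_prod]
    rw [h2, c.Φ_T, map_one]
  · obtain ⟨B, _, t, ht, hg⟩ := c.gen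
    refine ⟨B, inferInstance, fun b => algebraMap R F (t b), fun b => ?_, fun f => ?_⟩
    · have := Subring.mem_map.2 ⟨_, ht b, (rfl : algebraMap R F (t b) = _)⟩
      rwa [RingHom.map_closure, ← Set.range_comp] at this
    · obtain ⟨w, a, rfl⟩ := rep f
      obtain ⟨g, rfl⟩ := hg a
      refine ⟨fun b => w * algebraMap R F (g b), ?_⟩
      simp only [map_sum, map_mul, map_pow, Finset.mul_sum, mul_pow, mul_assoc]

end Pool.Agent.Lib.MP_bc213e_ag.KL
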