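import Pool.Agent.Lib.MP_bc213e_ag.KL.P.JC
import Pool.Agent.Lib.MP_bc213e_ag.KL.P.Res

/-! Tuples with the largest Jacobian in a valuation ring. -/

namespace Pool.Agent.Lib.MP_bc213e_ag.KL

open Pool.Agent.Lib.MP_bc213e_ag.DC (Jac)

variable {κ F σ : Type} [Field κ] [Field F] [Algebra κ F] [Fintype σ] [DecidableEq σ]

theorem dvr_mem (O : ValuationSubring F) (hκ : ∀ c : κ, algebraMap κ F c ∈ O) {τ : Type}
    {u : τ → F} (hu : ∀ i, u i ∈ O) (P : MvPolynomial τ κ) : MvPolynomial.aeval u P ∈ O := by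
  induction P using MvPolynomial.induction_on with
  | C a => rw [MvPolynomial.aeval_C]; exact hκ a
  | add f g hf hg => rw [map_add]; exact add_mem hf hg
  | mul_X f i hf => rw [map_mul, MvPolynomial.aeval_X]; exact mul_mem hf (hu i)

omit [Fintype σ] in
theorem dvr_update (O : ValuationSubring F) {u : σ → F} (hu : ∀ i, u i ∈ O) (i : σ) {z : F}
    (hz : z ∈ O) (l : σ) : Function.update u i z l ∈ O := by
  rw [Function.update_apply]
  split_ifs
  exacts [hz, hu l]

/-- One entry can be moved into the maximal ideal. Sketch: the polynomials `P` with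
`v (P (u)) < 1` form a prime ideal, nonzero by `res_dep`; `jc`, `Jac_update_aeval`. -/
theorem exists_update [PerfectField κ] (D : σ → Derivation κ F F) (O : ValuationSubring F)
    (hκ : ∀ c : κ, algebraMap κ F c ∈ O) (hO : O ≠ ⊤) (hn : Algebra.trdeg κ F ≤ Fintype.card σ)
    (u : σ → F) (hu : ∀ i, u i ∈ O) :
    ∃ (i : σ) (z : F), O.valuation z < 1 ∧
      O.valuation (Jac D (Function.update u i z)) = O.valuation (Jac D u) := by
  let φ : MvPolynomial σ κ →+* O :=
    (MvPolynomial.aeval u).toRingHom.codRestrict O (dvr_mem O hκ hu)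
  have e : ∀ P, P ∈ (IsLocalRing.maximalIdeal O).comap φ ↔
      O.valuation (MvPolynomial.aeval u P) < 1 := fun P => O.valuation_lt_one_iff _
  obtain ⟨Q, hQ0, hQ⟩ := res_dep O hκ hO hn u hu
  obtain ⟨P, hP, i, hi⟩ := jc ((IsLocalRing.maximalIdeal O).comap φ)
    fun h => hQ0 (Ideal.mem_bot.1 (h ▸ (e Q).2 hQ))
  refine ⟨i, _, (e P).1 hP, ?_⟩
  rw [Jac_update_aeval, map_mul, ((O.valuation_le_one_iff _).2 (dvr_mem O hκ hu _)).antisymm
    (not_lt.1 fun h => hi ((e _).2 h)), one_mul]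

/-- If `J` bounds all Jacobians then `Jac (u, π * y)` is bounded by `J * v y` for `y` a power of
`π` times an element of `O`. Sketch: `DC.car_exD`, Leibniz rule:
`d (π ^ (k + 1) * a) = π ^ k * ((k + 1) * a * d π + π * d a)`. -/
theorem val_Jac_pow (D : σ → Derivation κ F F) (O : ValuationSubring F) {J : F}
    (hJ : ∀ u : σ → F, (∀ l, u l ∈ O) → O.valuation (Jac D u) ≤ O.valuation J)
    (u : σ → F) (hu : ∀ i, u i ∈ O) (i : σ) {π a : F} (hπ : π ∈ O) (ha : a ∈ O) (k : ℕ) :
    O.valuation (Jac D (Function.update u i (π ^ (k + 1) * a))) ≤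
      O.valuation (π ^ k * J) := by
  obtain ⟨E, hE⟩ := DC.car_exD D u i
  have b : ∀ c ∈ O, ∀ z ∈ O, O.valuation (c * E z) ≤ O.valuation J := fun c hc z hz => by
    rw [map_mul, ← hE]
    exact (mul_le_of_le_one_left' ((O.valuation_le_one_iff c).2 hc)).trans
      (hJ _ (dvr_update O hu i hz))
  have e : E (π ^ (k + 1) * a) = π ^ k * (π * E a + a * ((k + 1 : ℕ) : F) * E π) := by
    rw [Derivation.leibniz, Derivation.leibniz_pow, Nat.add_sub_cancel]
    simp only [smul_eq_mul, nsmul_eq_mul]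
    ring
  rw [hE, e, map_mul, map_mul]
  exact mul_le_mul_right (O.valuation.map_add_le (b _ hπ _ ha)
    (b _ (mul_mem ha (natCast_mem O _)) _ hπ)) _

/-- A tuple with the largest Jacobian that contains a uniformiser `π'`. Sketch: `exists_update`
gives `z ≠ 0` (else the Jacobian is `0`), `z = π ^ (k + 1) * unit`, and `k = 0` by
`val_Jac_pow`. -/
theorem exists_unif_Jac [PerfectField κ] (D : σ → Derivation κ F F) (O : ValuationSubring F)
    (hκ : ∀ c : κ, algebraMap κ F c ∈ O) (hn : Algebra.trdeg κ F ≤ Fintype.card σ)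
    {π : F} (h0 : π ≠ 0) (h1 : O.valuation π < 1)
    (h2 : ∀ z : F, z ≠ 0 → O.valuation z < 1 → ∃ k : ℕ, O.valuation z = O.valuation π ^ (k + 1))
    (u : σ → F) (hu : ∀ i, u i ∈ O) (hJ0 : Jac D u ≠ 0)
    (hJ : ∀ u' : σ → F, (∀ l, u' l ∈ O) → O.valuation (Jac D u') ≤ O.valuation (Jac D u)) :
    ∃ (u' : σ → F) (i : σ), (∀ l, u' l ∈ O) ∧ O.valuation (u' i) = O.valuation π ∧
      O.valuation (Jac D u') = O.valuation (Jac D u) := by
  have v0 : O.valuation π ≠ 0 := (map_ne_zero _).2 h0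
  have j0 : 0 < O.valuation (Jac D u) := zero_lt_iff.2 ((map_ne_zero _).2 hJ0)
  have hO : O ≠ ⊤ := fun h => by
    have h3 := (O.valuation_le_one_iff π⁻¹).2 (by rw [h]; exact ValuationSubring.mem_top _)
    rw [map_inv₀, inv_le_one₀ (zero_lt_iff.2 v0)] at h3
    exact h1.not_ge h3
  obtain ⟨i, z, hz, e⟩ := exists_update D O hκ hO hn u hu
  have z0 : z ≠ 0 := fun h => by
    obtain ⟨E, hE⟩ := DC.car_exD D u i
    rw [hE, h, map_zero, map_zero] at e
    exact j0.ne e
  obtain ⟨k, hk⟩ := h2 z z0 hz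
  have ha : z / π ^ (k + 1) ∈ O := (O.valuation_le_one_iff _).1 (by
    rw [map_div₀, map_pow, hk, div_self (pow_ne_zero _ v0)])
  have h3 := val_Jac_pow D O hJ u hu i ((O.valuation_le_one_iff π).1 h1.le) ha k
  rw [mul_div_cancel₀ _ (pow_ne_zero _ h0), e, map_mul, map_pow] at h3
  have k0 : k = 0 := by
    by_contra h
    exact (mul_lt_of_lt_one_left j0 (pow_lt_one₀ zero_le h1 h)).not_ge h3
  refine ⟨_, i, dvr_update O hu i ((O.valuation_le_one_iff z).1 hz.le), ?_, e⟩
  rw [Function.update_self, hk, k0, zero_add, pow_one]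

end Pool.Agent.Lib.MP_bc213e_ag.KL
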