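import Pool.Agent.Lib.MP_bc213e_ag.DC.Car

/-! The iterated Cartier operator. -/

namespace Pool.Agent.Lib.MP_bc213e_ag.KL

open Pool.Agent.Lib.MP_bc213e_ag.DC

variable {κ A ι : Type} [CommRing κ] [CommRing A] [Algebra κ A] [Fintype ι] [DecidableEq ι]
  {p : ℕ} [Fact p.Prime] [CharP A p] (c : Car κ A ι p)

omit [Fact p.Prime] [CharP A p] in
theorem iter_mul (e : ℕ) (f g : A) : c.Φ^[e] (f ^ p ^ e * g) = f * c.Φ^[e] g := by
  induction e generalizing g with
  | zero => simp
  | succ e ih =>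
    rw [Function.iterate_succ_apply, Function.iterate_succ_apply, pow_succ, pow_mul, c.Φ_mul, ih]

omit [Fact p.Prime] [CharP A p] in
theorem iter_add (e : ℕ) (f g : A) : c.Φ^[e] (f + g) = c.Φ^[e] f + c.Φ^[e] g := by
  exact iterate_map_add c.Φ e f g

/-- Induction on `e` with `lcar_one`: `p ^ (e + 1) - 1 = (p ^ e - 1) * p + (p - 1)`. -/
theorem iter_one (e : ℕ) (Y : ι → A) :
    c.Φ^[e] ((∏ j, Y j ^ (p ^ e - 1)) * Jac c.der Y) = Jac c.der Y := by
  induction e with
  | zero => simp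
  | succ e ih =>
    have hp : 0 < p := (Fact.out : p.Prime).pos
    have h : p ^ (e + 1) - 1 = (p ^ e - 1) * p + (p - 1) := by
      have h1 : 1 * p ≤ p ^ e * p := Nat.mul_le_mul_right _ (Nat.one_le_pow _ _ hp)
      rw [pow_succ, Nat.sub_mul]
      omega
    rw [Function.iterate_succ_apply, h,
      Finset.prod_congr rfl fun j _ => by rw [pow_add (Y j), pow_mul], Finset.prod_mul_distrib,
      Finset.prod_pow _ p, mul_assoc, c.Φ_mul, c.lcar_one, ih]

omit [CharP A p] in
/-- The iterate of `y ↦ Φ (a * y)`. -/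
theorem iter_twist (e : ℕ) (a y : A) :
    (fun z => c.Φ (a * z))^[e] y = c.Φ^[e] (a ^ (∑ i ∈ Finset.range e, p ^ i) * y) := by
  have _ : p.Prime := Fact.out
  induction e with
  | zero => simp
  | succ e ih =>
    rw [Function.iterate_succ_apply', Function.iterate_succ_apply', ih, ← iter_mul,
      Finset.sum_range_succ, pow_add, ← mul_assoc, mul_comm (a ^ p ^ e)]

/-- Elements of the ring generated by `x` and the `q`-th powers, `q = p ^ e`, expanded in the
monomials with exponents less than `q`. Sketch: such sums form a subring or use the additive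
closure; `x ^ k = (x ^ (k / q)) ^ q * x ^ (k % q)`, `add_pow_char_pow`. -/
theorem expand_of_gen {N : Type} [Fintype N] [DecidableEq N] (x : N → A) (e : ℕ) {f : A}
    (hf : f ∈ Subring.closure (Set.range x ∪ Set.range fun g : A => g ^ p ^ e)) :
    ∃ g : (N → Fin (p ^ e)) → A, f = ∑ γ, g γ ^ p ^ e * ∏ i, x i ^ (γ i : ℕ) := by
  have hq : 0 < p ^ e := pow_pos (Fact.out : p.Prime).pos e
  let S : AddSubgroup A :=
    { carrier := {f | ∃ g : (N → Fin (p ^ e)) → A, f = ∑ γ, g γ ^ p ^ e * ∏ i, x i ^ (γ i : ℕ)}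
      zero_mem' := ⟨0, by simp [zero_pow hq.ne']⟩
      add_mem' := by
        rintro _ _ ⟨g, rfl⟩ ⟨g', rfl⟩
        exact ⟨g + g', by
          simp only [Pi.add_apply, add_pow_char_pow, add_mul, Finset.sum_add_distrib]⟩
      neg_mem' := by
        rintro _ ⟨g, rfl⟩
        have h : ∀ y : A, (-y) ^ p ^ e = -y ^ p ^ e := fun y => by
          rw [← zero_sub y, sub_pow_char_pow, zero_pow hq.ne', zero_sub]
        exact ⟨-g, by simp only [Pi.neg_apply, h, neg_mul, Finset.sum_neg_distrib]⟩ }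
  have key : ∀ (h : A) (β : N → ℕ), h ^ p ^ e * ∏ i, x i ^ β i ∈ S := fun h β => by
    refine ⟨Pi.single (fun i => ⟨β i % p ^ e, Nat.mod_lt _ hq⟩) (h * ∏ i, x i ^ (β i / p ^ e)), ?_⟩
    rw [Finset.sum_eq_single (fun i => (⟨β i % p ^ e, Nat.mod_lt _ hq⟩ : Fin (p ^ e)))
      (fun γ _ hγ => by rw [Pi.single_eq_of_ne hγ, zero_pow hq.ne', zero_mul]) (by simp),
      Pi.single_eq_same, mul_pow, ← Finset.prod_pow, mul_assoc, ← Finset.prod_mul_distrib]
    simp only [← pow_mul, ← pow_add, Nat.div_add_mod']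
  change f ∈ S
  induction hf using Subring.closure_induction with
  | mem y hy =>
    rcases hy with ⟨i, rfl⟩ | ⟨g, rfl⟩
    · simpa [Pi.single_apply, pow_ite] using key 1 (Pi.single i 1)
    · simpa using key g 0
  | zero => exact S.zero_mem
  | one => simpa using key 1 0
  | add _ _ _ _ h h' => exact S.add_mem h h'
  | neg _ _ h => exact S.neg_mem h
  | mul _ _ _ _ h h' =>
    obtain ⟨g, rfl⟩ := h
    obtain ⟨g', rfl⟩ := h'
    rw [Finset.sum_mul_sum]
    refine S.sum_mem fun γ _ => S.sum_mem fun γ' _ => ?_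
    have h := key (g γ * g' γ') fun i => γ i + γ' i
    simp only [pow_add, Finset.prod_mul_distrib, mul_pow] at h
    rwa [mul_mul_mul_comm]

end Pool.Agent.Lib.MP_bc213e_ag.KL
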