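import Pool.Agent.Lib.MP_4287a9_ag.WStd

/-! The valuation ring of a prime divisor. -/

namespace Pool.Agent.Lib.MP_bc213e_ag.KL

open Pool.Agent.Lib.MP_4287a9_ag (InLoc)

theorem vs_fac {R : Type} [CommRing R] [IsDomain R] {P : Ideal R} (hP : P.IsPrime) {π : R}
    (h0 : π ≠ 0) (hg : ∀ w ∈ P, ∃ s ∉ P, π ∣ s * w) (n : ℕ) :
    ∀ a : R, ∀ s ∉ P, a ∣ s * π ^ n → ∃ k : ℕ, ∃ t ∉ P, ∃ u ∉ P, t * a = π ^ k * u := by
  induction n with
  | zero =>
    exact fun a s hs h => ⟨0, 1, hP.one_notMem, a,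
      fun ha => hs (by simpa using P.mem_of_dvd h ha), by simp⟩
  | succ n ih =>
    rintro a s hs ⟨c, hc⟩
    by_cases ha : a ∈ P
    · obtain ⟨s1, h1, a', e⟩ := hg a ha
      obtain ⟨k, t, ht, u, hu, e'⟩ := ih a' (s1 * s) (fun h => (hP.mem_or_mem h).elim h1 hs)
        ⟨c, mul_left_cancel₀ h0 (by linear_combination s1 * hc + c * e)⟩
      exact ⟨k + 1, t * s1, fun h => (hP.mem_or_mem h).elim ht h1, u, hu,
        by linear_combination t * e + π * e'⟩
    · exact ⟨0, 1, hP.one_notMem, a, ha, by simp⟩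

/-- The valuation ring of a prime of height one. -/
theorem exists_valSub {R : Type} [CommRing R] [IsDomain R] [IsNoetherianRing R]
    [IsIntegrallyClosed R] {P : Ideal R} (hP : P.IsPrime) (h1 : P.height = 1) :
    ∃ (O : ValuationSubring (FractionRing R)) (π : FractionRing R), (∀ z, z ∈ O ↔ InLoc P z) ∧
      (∀ a : R, O.valuation (algebraMap R _ a) < 1 ↔ a ∈ P) ∧ π ≠ 0 ∧ O.valuation π < 1 ∧
      ∀ z, z ≠ 0 → O.valuation z < 1 → ∃ k : ℕ, O.valuation z = O.valuation π ^ (k + 1) := by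
  obtain ⟨π, hπ, h0, hg⟩ := MP_4287a9_ag.exists_unif hP h1
  have hm : ∀ {s t : R}, s ∉ P → t ∉ P → s * t ∉ P := fun hs ht h => (hP.mem_or_mem h).elim hs ht
  have hi : ∀ {a : R}, a ≠ 0 → algebraMap R (FractionRing R) a ≠ 0 := fun h => by simpa using h
  have key : ∀ a : R, a ≠ 0 → ∃ k : ℕ, ∃ t ∉ P, ∃ u ∉ P, t * a = π ^ k * u := fun a ha => by
    obtain ⟨d, hd, s, hs, h⟩ := MP_4287a9_ag.exists_ord_gen hP hπ hg
      (mt Ideal.span_singleton_eq_bot.1 ha)
    exact vs_fac hP h0 hg _ a s hs ((Ideal.mem_span_singleton.1 hd).trans h)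
  have hd : ∀ {a b t u t' u' : R} {i j : ℕ}, b ≠ 0 → t ∉ P → u' ∉ P → t * a = π ^ i * u →
      t' * b = π ^ j * u' → j ≤ i → InLoc P (algebraMap R _ a / algebraMap R _ b) := by
    intro a b t u t' u' i j hb ht hu e e' hj
    obtain ⟨k, rfl⟩ := Nat.exists_eq_add_of_le hj
    refine ⟨t * u', hm ht hu, π ^ k * u * t', ?_⟩
    rw [← mul_div_assoc, div_eq_iff (hi hb), ← map_mul, ← map_mul]
    exact congrArg _ (by linear_combination u' * e - π ^ k * u * e')
  let O : ValuationSubring (FractionRing R) :=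
    { carrier := {z | InLoc P z}
      mul_mem' := fun ⟨s, hs, a, ha⟩ ⟨t, ht, b, hb⟩ =>
        ⟨s * t, hm hs ht, a * b, by rw [map_mul, map_mul, ← ha, ← hb]; ring⟩
      add_mem' := fun ⟨s, hs, a, ha⟩ ⟨t, ht, b, hb⟩ => ⟨s * t, hm hs ht, a * t + s * b, by
        rw [map_add, map_mul, map_mul, map_mul, ← ha, ← hb]; ring⟩
      neg_mem' := fun ⟨s, hs, a, ha⟩ => ⟨s, hs, -a, by rw [map_neg, ← ha, mul_neg]⟩
      one_mem' := ⟨1, hP.one_notMem, 1, mul_one _⟩
      zero_mem' := ⟨1, hP.one_notMem, 0, by simp⟩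
      mem_or_inv_mem' := fun z => by
        obtain ⟨a, b, hb, rfl⟩ := IsFractionRing.div_surjective (A := R) z
        by_cases ha : a = 0
        · exact Or.inl ⟨1, hP.one_notMem, 0, by simp [ha]⟩
        obtain ⟨i, t, ht, u, hu, e⟩ := key a ha
        obtain ⟨j, t', ht', u', hu', e'⟩ := key b (nonZeroDivisors.ne_zero hb)
        rw [inv_div]
        exact (le_total j i).imp (hd (nonZeroDivisors.ne_zero hb) ht hu' e e') (hd ha ht' hu e' e) }
  have hv : ∀ a : R, O.valuation (algebraMap R _ a) < 1 ↔ a ∈ P := fun a => by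
    rw [← O.mem_nonunits_iff, O.mem_nonunits_iff_or]
    by_cases ha : a = 0
    · simp [ha]
    refine ⟨fun h => by_contra fun h2 => h.resolve_left (hi ha)
      ⟨a, h2, 1, by rw [mul_inv_cancel₀ (hi ha), map_one]⟩, fun h => Or.inr ?_⟩
    rintro ⟨s, hs, b, e⟩
    rw [mul_inv_eq_iff_eq_mul₀ (hi ha), ← map_mul] at e
    exact hs (IsFractionRing.injective R _ e ▸ P.mul_mem_left b h)
  have hu : ∀ u ∉ P, O.valuation (algebraMap R _ u) = 1 := fun u h =>
    le_antisymm ((O.valuation_le_one_iff _).2 ⟨1, hP.one_notMem, u, by simp⟩)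
      (not_lt.1 (mt (hv u).1 h))
  have hk : ∀ a : R, a ≠ 0 → ∃ k : ℕ,
      O.valuation (algebraMap R _ a) = O.valuation (algebraMap R _ π) ^ k := fun a ha => by
    obtain ⟨k, t, ht, u, h, e⟩ := key a ha
    exact ⟨k, by simpa [hu t ht, hu u h] using congrArg (fun x => O.valuation (algebraMap R _ x)) e⟩
  refine ⟨O, algebraMap R _ π, fun _ => Iff.rfl, hv, hi h0, (hv π).2 hπ, fun z hz h => ?_⟩
  obtain ⟨a, b, hb, rfl⟩ := IsFractionRing.div_surjective (A := R) z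
  obtain ⟨i, e⟩ := hk a fun ha => hz (by simp [ha])
  obtain ⟨j, e'⟩ := hk b (nonZeroDivisors.ne_zero hb)
  have h2 := zero_lt_iff.2 ((map_ne_zero O.valuation).2 (hi h0))
  rw [map_div₀, e, e'] at h ⊢
  rw [div_lt_one₀ (pow_pos h2 _), pow_lt_pow_iff_right_of_lt_one₀ h2 ((hv π).2 hπ)] at h
  obtain ⟨k, rfl⟩ := Nat.exists_eq_add_of_lt h
  exact ⟨k, by rw [add_assoc, pow_add, mul_div_cancel_left₀ _ (pow_pos h2 _).ne']⟩

end Pool.Agent.Lib.MP_bc213e_ag.KL
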