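import Pool.Agent.Lib.MP_4287a9_ag.Hart
import Pool.Agent.Lib.MP_bc213e_ag.KL.P.Vs
import Pool.Agent.Lib.MP_bc213e_ag.KL.P.Jsp
import Pool.Agent.Lib.MP_bc213e_ag.KL.P.Dvr
import Pool.Agent.Lib.MP_bc213e_ag.KL.P.Rep

/-! The maps of the Cartier algebra of a pair. -/

namespace Pool.Agent.Lib.MP_bc213e_ag.KL

open Pool.Agent.Lib.MP_4287a9_ag (IsCart InLoc)
open Pool.Agent.Lib.MP_bc213e_ag.DC

theorem hart_pow {R F Γ : Type} [CommRing R] [Field F] [LinearOrderedCommGroupWithZero Γ]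
    (v : Valuation F Γ) (j : R →+* F) (h1 : ∀ a, v (j a) ≤ 1) {S : Set R} {g : Γ}
    (hS : ∀ d ∈ S, v (j d) ≤ g) (n : ℕ) : ∀ d ∈ Ideal.span S ^ n, v (j d) ≤ g ^ n := by
  have h2 : ∀ d ∈ Ideal.span S, v (j d) ≤ g := fun d hd => by
    refine Submodule.span_induction (p := fun d _ => v (j d) ≤ g) hS (by simp)
      (fun a b _ _ ha hb => ?_) (fun a b _ hb => ?_) hd
    · rw [map_add]
      exact v.map_add_le ha hb
    · rw [smul_eq_mul, map_mul, map_mul]
      exact (mul_le_mul' (h1 a) hb).trans_eq (one_mul g)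
  induction n with
  | zero => exact fun d _ => (h1 d).trans_eq (pow_zero g).symm
  | succ n ih =>
    intro d hd
    rw [pow_succ] at hd ⊢
    refine Submodule.mul_induction_on hd (fun a ha b hb => ?_) fun a b ha hb => ?_
    · rw [map_mul, map_mul]
      exact mul_le_mul' (ih a ha) (h2 b hb)
    · rw [map_add]
      exact v.map_add_le ha hb

theorem hart_den {R : Type} [CommRing R] [IsNoetherianRing R] {P : Ideal R} (hP : P.IsPrime)
    (I : Ideal R) {x : FractionRing R} (h : ∀ d ∈ I, InLoc P (x * algebraMap R _ d)) :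
    ∃ s ∉ P, ∀ d ∈ I, ∃ a : R, algebraMap R _ s * (x * algebraMap R _ d) = algebraMap R _ a := by
  classical
  obtain ⟨S, rfl⟩ := IsNoetherian.noetherian I
  choose! s hs a ha using h
  refine ⟨∏ d ∈ S, s d, fun e => ?_, fun d hd => ?_⟩
  · obtain ⟨d, hd, e'⟩ := (hP.prod_mem_iff ..).1 e
    exact hs d (Submodule.subset_span hd) e'
  · refine Submodule.span_induction (p := fun d _ => ∃ a : R, algebraMap R _ (∏ d ∈ S, s d) *
      (x * algebraMap R _ d) = algebraMap R (FractionRing R) a) (fun d hd => ?_) ⟨0, by simp⟩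
      (fun b b' _ _ ⟨c, hc⟩ ⟨c', hc'⟩ => ⟨c + c', ?_⟩) (fun b b' _ ⟨c, hc⟩ => ⟨b * c, ?_⟩) hd
    · refine ⟨(∏ d ∈ S.erase d, s d) * a d, ?_⟩
      rw [← Finset.prod_erase_mul S s hd, map_mul, map_mul, mul_assoc,
        ha d (Submodule.subset_span hd)]
    · rw [map_add, map_add, ← hc, ← hc']
      ring
    · rw [smul_eq_mul, map_mul, map_mul, ← hc]
      ring

/-- `𝔡` is generated by the elements `θ * Jac (t ∘ s) ^ r`. A map `ψ = Φ^[e] (c₀ * ·)` that extends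
to `(R : 𝔡 ^ n)`, `r n = q - 1`, has `c₀ ∈ θ ^ n R`.
Sketch: `hartogs`. Let `P` have height one, `O, π` from `exists_valSub`, `c' = c₀ / θ ^ n ∉ O`, so
`v (c'⁻¹) ≤ v π`. `exists_max_Jac` (`Jac c.der c.T = 1`) and `exists_unif_Jac` give `u, i` with
`J = Jac u` of largest value and `v (u i) = v π`. Let
`x = c₀⁻¹ * ((u i * J)⁻¹ ^ q * ((∏ l, u l ^ (q - 1)) * J))`, so that
`Φ^[e] (c₀ * x) = (u i)⁻¹` (`iter_mul`, `iter_one`). For `d ∈ 𝔡 ^ n`, `v d ≤ v (θ * J ^ r) ^ n`,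
hence `x * d ∈ O`. As `𝔡 ^ n` is finitely generated there is `s ∉ P` with `s ^ q * x * d ∈ R` for
all `d ∈ 𝔡 ^ n`. Write `s ^ q * x = y / z ^ q`; `IsCart.div` gives `z ∣ ψ y`, and
`ψ y = z * s / u i`, so `s / u i ∈ R`, a contradiction. -/
theorem cart_mem {κ R ι N : Type} [Field κ] [PerfectField κ] [CommRing R] [IsDomain R]
    [IsNoetherianRing R] [IsIntegrallyClosed R] [Algebra κ R] [Fintype ι] [DecidableEq ι]
    [Fintype N] {p : ℕ} [Fact p.Prime] [CharP (FractionRing R) p] (c : Car κ (FractionRing R) ι p)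
    (hn : Algebra.trdeg κ (FractionRing R) ≤ Fintype.card ι) (t : N → R)
    (ht : ∀ y : R, ∃ s ∈ Algebra.adjoin κ (Set.range t), IsUnit s ∧
      s * y ∈ Algebra.adjoin κ (Set.range t))
    {θ : FractionRing R} (hθ : θ ≠ 0) {r n e : ℕ} (hr : 0 < r) (hq : p ^ e = r * n + 1)
    (δ : (ι → N) → R)
    (hδ : ∀ s, algebraMap R (FractionRing R) (δ s) =
      θ * Jac c.der (fun l => algebraMap R _ (t (s l))) ^ r)
    {ψ : R →+ R} (hψ : IsCart (Ideal.span (Set.range δ)) r (p ^ e) ψ) {c₀ : FractionRing R}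
    (h : ∀ y, algebraMap R _ (ψ y) = c.Φ^[e] (c₀ * algebraMap R _ y)) :
    ∃ c' : R, c₀ = θ ^ n * algebraMap R _ c' := by
  have hinj := IsFractionRing.injective R (FractionRing R)
  suffices H : c₀ / θ ^ n ∈ (algebraMap R (FractionRing R)).range by
    obtain ⟨c', hc'⟩ := H
    exact ⟨c', by rw [hc', mul_div_cancel₀ _ (pow_ne_zero n hθ)]⟩
  refine Pool.Agent.Lib.MP_4287a9_ag.hartogs _ fun P hP h1 => ?_
  obtain ⟨O, π, hO, hv, π0, π1, π2⟩ := exists_valSub hP h1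
  by_contra hc
  rw [← hO] at hc
  have hR : ∀ a : R, algebraMap R (FractionRing R) a ∈ O := fun a =>
    (hO _).2 ⟨1, (Ideal.ne_top_iff_one P).1 hP.ne_top, a, by rw [map_one, one_mul]⟩
  have hR' := fun a => (O.valuation_le_one_iff _).2 (hR a)
  have c0 : c₀ ≠ 0 := fun e => hc (by rw [e, zero_div]; exact O.zero_mem)
  have hw : O.valuation (θ ^ n / c₀) ≤ O.valuation π := by
    obtain ⟨k, hk⟩ := π2 (θ ^ n / c₀) (div_ne_zero (pow_ne_zero n hθ) c0) (by
      rw [← inv_div, map_inv₀]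
      exact inv_lt_one_of_one_lt₀ (not_le.1 (mt (O.valuation_le_one_iff _).1 hc)))
    rw [hk, pow_succ]
    exact mul_le_of_le_one_left' (pow_le_one' π1.le k)
  have hA : Algebra.adjoin κ (Set.range fun i => algebraMap R (FractionRing R) (t i)) =
      (Algebra.adjoin κ (Set.range t)).map (IsScalarTower.toAlgHom κ R (FractionRing R)) := by
    rw [AlgHom.map_adjoin, ← Set.range_comp]
    rfl
  have hA1 : ∀ a ∈ Algebra.adjoin κ (Set.range fun i => algebraMap R (FractionRing R) (t i)),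
      a ∈ O := fun a ha => by
    rw [hA] at ha
    obtain ⟨b, -, rfl⟩ := ha
    exact hR b
  have hA2 : ∀ f ∈ O, ∃ s ∈ Algebra.adjoin κ (Set.range fun i => algebraMap R (FractionRing R) (t i)),
      s ≠ 0 ∧ s⁻¹ ∈ O ∧
        s * f ∈ Algebra.adjoin κ (Set.range fun i => algebraMap R (FractionRing R) (t i)) := by
    intro f hf
    obtain ⟨s, hs, a, e⟩ := (hO f).1 hf
    obtain ⟨s1, m1, u1, n1⟩ := ht s
    obtain ⟨s2, m2, u2, n2⟩ := ht a
    have v1 : O.valuation (algebraMap R _ (s2 * (s1 * s))) = 1 := (hR' _).eq_of_not_lt fun q =>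
      hs ((P.unit_mul_mem_iff_mem u1).1 ((P.unit_mul_mem_iff_mem u2).1 ((hv _).1 q)))
    rw [hA]
    refine ⟨_, ⟨s2 * (s1 * s), mul_mem m2 n1, rfl⟩, fun q => ?_, ?_, s1 * (s2 * a), mul_mem m1 n2, ?_⟩
    · exact zero_ne_one ((map_zero _).symm.trans (q ▸ v1))
    · rw [← O.valuation_le_one_iff, map_inv₀]
      exact (congrArg Inv.inv v1).trans_le inv_one.le
    · simp only [IsScalarTower.coe_toAlgHom', map_mul, RingHom.coe_coe, ← e]
      ring
  obtain ⟨s₀, j0, j1, j2⟩ := exists_max_Jac c.der (fun i => algebraMap R (FractionRing R) (t i)) O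
    hA1 hA2 (u₁ := c.T) (by
      rw [Jac, show (Matrix.of fun a b => c.der a (c.T b)) = 1 from
        Matrix.ext fun a b => (c.der_T a b).trans Matrix.one_apply.symm, Matrix.det_one]
      exact one_ne_zero)
  obtain ⟨u, i, u1, u2, u3⟩ := exists_unif_Jac c.der O (fun a => hA1 _ (Subalgebra.algebraMap_mem _ a))
    hn π0 π1 π2 _ (fun l => hR _) j0 j2
  have J0 : Jac c.der u ≠ 0 := (Valuation.ne_zero_iff _).1 (u3 ▸ (Valuation.ne_zero_iff _).2 j0)
  have i0 : u i ≠ 0 := (Valuation.ne_zero_iff _).1 (u2 ▸ (Valuation.ne_zero_iff _).2 π0)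
  obtain ⟨x, hx⟩ : ∃ x, x = c₀⁻¹ * ((u i * Jac c.der u)⁻¹ ^ p ^ e *
    ((∏ l, u l ^ (p ^ e - 1)) * Jac c.der u)) := ⟨_, rfl⟩
  have x1 : c.Φ^[e] (c₀ * x) = (u i)⁻¹ := by
    rw [hx, mul_inv_cancel_left₀ c0, iter_mul, iter_one, mul_inv, inv_mul_cancel_right₀ J0]
  have x2 : O.valuation x * O.valuation (θ * Jac c.der u ^ r) ^ n ≤ 1 := by
    have a : x * (θ * Jac c.der u ^ r) ^ n =
        θ ^ n / c₀ / u i * ∏ l ∈ Finset.univ.erase i, u l ^ (p ^ e - 1) := by
      rw [hx, ← Finset.prod_erase_mul _ _ (Finset.mem_univ i), hq, Nat.add_sub_cancel, mul_pow,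
        ← pow_mul, inv_pow, mul_pow, pow_succ, pow_succ]
      field_simp
    rw [← map_pow, ← map_mul, a, O.valuation_le_one_iff]
    refine mul_mem ?_ (prod_mem fun l _ => pow_mem (u1 l) _)
    rw [← O.valuation_le_one_iff, map_div₀, u2]
    exact div_le_one_of_le₀ hw zero_le
  obtain ⟨s, hs, x3⟩ := hart_den hP (Ideal.span (Set.range δ) ^ n) (x := x) fun d hd => by
    rw [← hO, ← O.valuation_le_one_iff, map_mul]
    refine (mul_le_mul_right (hart_pow O.valuation _ hR' ?_ n d hd) _).trans x2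
    rintro _ ⟨s', rfl⟩
    rw [hδ, map_mul, map_mul, map_pow, map_pow, u3]
    exact mul_le_mul_right (pow_le_pow_left' (j1 s') r) _
  obtain ⟨a, b, hb, e1⟩ := IsFractionRing.div_surjective (A := R) (algebraMap R _ s ^ p ^ e * x)
  have b0 : algebraMap R (FractionRing R) b ≠ 0 :=
    (map_ne_zero_iff _ hinj).2 (nonZeroDivisors.ne_zero hb)
  have e2 : algebraMap R (FractionRing R) (a * b ^ (r * n)) =
      (algebraMap R _ b * algebraMap R _ s) ^ p ^ e * x := by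
    rw [mul_pow, mul_assoc, ← e1, hq, map_mul, map_pow, pow_succ]
    field_simp
  obtain ⟨g, hg⟩ := hψ.div b hb (a * b ^ (r * n)) fun d hd => by
    rw [hq, Nat.add_sub_cancel, Nat.mul_div_cancel_left n hr] at hd
    obtain ⟨a', ha'⟩ := x3 d hd
    refine ⟨s ^ (r * n) * a', hinj ?_⟩
    rw [map_mul, e2, map_mul, map_mul, map_pow, map_pow, ← ha', hq]
    ring
  have e3 := h (a * b ^ (r * n))
  rw [e2, mul_left_comm, iter_mul, x1, hg, map_mul, mul_assoc, mul_right_inj' b0,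
    eq_mul_inv_iff_mul_eq₀ i0] at e3
  refine hs ((hv s).1 ?_)
  rw [← e3, map_mul, u2]
  exact (mul_le_of_le_one_left' (hR' g)).trans_lt π1

end Pool.Agent.Lib.MP_bc213e_ag.KL
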