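import Pool.Agent.Lib.MP_bc213e_ag.KL.P.Rep

/-! All `q⁻¹`-linear maps are multiples of the iterated Cartier operator. -/

namespace Pool.Agent.Lib.MP_bc213e_ag.KL

open Pool.Agent.Lib.MP_bc213e_ag.DC

variable {κ A ι : Type} [CommRing κ] [CommRing A] [Algebra κ A] [Fintype ι] [DecidableEq ι]
  {p : ℕ} [Fact p.Prime] [CharP A p] (c : Car κ A ι p)

omit [Fact p.Prime] [CharP A p] in
theorem rep2_jac : Jac c.der c.T = 1 := by
  have : (Matrix.of fun a b => c.der a (c.T b)) = 1 := by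
    ext a b
    rw [Matrix.of_apply, c.der_T, Matrix.one_apply]
  rw [Jac, this, Matrix.det_one]

theorem rep2_gen (e : ℕ) (f : A) :
    f ∈ Subring.closure (Set.range c.T ∪ Set.range fun g : A => g ^ p ^ e) := by
  induction e generalizing f with
  | zero => exact Subring.subset_closure (.inr ⟨f, by simp⟩)
  | succ e ih =>
    refine car_gen c (R := (· ∈ _)) (fun g => ?_) (fun a => Subring.subset_closure (.inl ⟨a, rfl⟩))
      (fun _ _ => add_mem) (fun _ => neg_mem) (fun _ _ => mul_mem) f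
    refine Subring.mem_comap.1 ((Subring.closure_le (t := Subring.comap (frobenius A p)
      (Subring.closure (Set.range c.T ∪ Set.range fun g : A => g ^ p ^ (e + 1))))).2 ?_ (ih g))
    rintro _ (⟨a, rfl⟩ | ⟨a, rfl⟩) <;> refine Subring.mem_comap.2 ?_
    · exact pow_mem (Subring.subset_closure (.inl ⟨a, rfl⟩)) p
    · exact Subring.subset_closure (.inr ⟨a, by simp only [frobenius_def, ← pow_mul, pow_succ]⟩)

theorem rep2_zero (e : ℕ) (δ : ι → ℕ) {i : ι} (h : ¬ p ^ e ∣ δ i + 1) :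
    c.Φ^[e] (∏ j, c.T j ^ δ j) = 0 := by
  induction e generalizing δ with
  | zero => simp at h
  | succ e ih =>
    rw [Function.iterate_succ_apply]
    by_cases h1 : ∀ j, p ∣ δ j + 1
    · choose m hm using h1
      have h2 : ∀ j, m j - 1 + 1 = m j := fun j =>
        Nat.sub_add_cancel (Nat.pos_of_ne_zero fun e => by simpa [e] using hm j)
      have h3 : ∏ j, c.T j ^ δ j = (∏ j, c.T j ^ (m j - 1)) ^ p * ∏ j, c.T j ^ (p - 1) := by
        rw [← Finset.prod_pow, ← Finset.prod_mul_distrib]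
        refine Finset.prod_congr rfl fun j _ => ?_
        have h4 := hm j
        have h5 := (Fact.out : p.Prime).pos
        rw [← h2 j, mul_add, mul_one, mul_comm] at h4
        rw [← pow_mul, ← pow_add]
        congr 1
        omega
      rw [h3, c.Φ_mul, c.Φ_T, mul_one]
      refine ih _ fun h4 => h ?_
      rw [hm i, pow_succ']
      exact Nat.mul_dvd_mul_left p (h2 i ▸ h4)
    · obtain ⟨j, hj⟩ := not_forall.1 h1
      have := c.lcar_zero c.T δ hj
      rw [rep2_jac, mul_one] at this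
      rw [this, Function.iterate_fixed (map_zero _)]

/-- Take `c₀ = ∑ γ, ψ (T ^ γ) ^ q * T ^ (q - 1 - γ)`. -/
theorem exists_rep (e : ℕ) (ψ : A →+ A) (h : ∀ w y, ψ (w ^ p ^ e * y) = w * ψ y) :
    ∃ c₀ : A, ∀ y, ψ y = c.Φ^[e] (c₀ * y) := by
  refine ⟨∑ γ : ι → Fin (p ^ e), ψ (∏ i, c.T i ^ (γ i : ℕ)) ^ p ^ e *
    ∏ i, c.T i ^ (p ^ e - 1 - γ i), fun y => ?_⟩
  obtain ⟨g, rfl⟩ := expand_of_gen c.T e (rep2_gen c e y)
  change _ = AddMonoidHom.mk' _ (iter_add c e) _
  simp only [Finset.sum_mul, Finset.mul_sum, map_sum, h, AddMonoidHom.mk'_apply]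
  refine Finset.sum_congr rfl fun γ _ => ?_
  have h1 : ∀ β : ι → Fin (p ^ e), c.Φ^[e] ((ψ (∏ i, c.T i ^ (β i : ℕ)) ^ p ^ e *
      ∏ i, c.T i ^ (p ^ e - 1 - β i)) * (g γ ^ p ^ e * ∏ i, c.T i ^ (γ i : ℕ))) =
      ψ (∏ i, c.T i ^ (β i : ℕ)) * g γ * c.Φ^[e] (∏ i, c.T i ^ (p ^ e - 1 - β i + γ i)) :=
    fun β => by simp only [← iter_mul, mul_pow, pow_add, Finset.prod_mul_distrib,
      mul_mul_mul_comm]
  simp only [h1]
  rw [Finset.sum_eq_single γ (fun β _ hβ => ?_) (by simp)]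
  · have h2 := iter_one c e c.T
    have h3 : ∀ i, p ^ e - 1 - γ i + γ i = p ^ e - 1 := fun i => by have := (γ i).2; omega
    rw [rep2_jac, mul_one] at h2
    simp only [h3, h2, one_mul, mul_comm]
  · obtain ⟨i, hi⟩ := Function.ne_iff.1 hβ
    rw [rep2_zero c e _ (i := i), mul_zero]
    rintro ⟨m, hm⟩
    have a1 := (γ i).2
    have a2 := (β i).2
    have a3 : (β i : ℕ) ≠ γ i := Fin.val_ne_of_ne hi
    generalize p ^ e = q at *
    rcases m with _ | _ | m
    · omega
    · omega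
    · rw [mul_add, mul_add] at hm
      omega

end Pool.Agent.Lib.MP_bc213e_ag.KL
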