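import Pool.Agent.Lib.MP_4287a9_ag.WLoc
import Pool.Agent.Lib.MP_bc213e_ag.KL.P.Hart
import Pool.Agent.Lib.MP_bc213e_ag.KL.P.Frac
import Pool.Agent.Lib.MP_bc213e_ag.KL.P.Rep2

/-! An F-pure pair has a Cartier operator without base point, local form. -/

namespace Pool.Agent.Lib.MP_bc213e_ag.KL

open Pool.Agent.Lib.MP_4287a9_ag (SFRi)
open Pool.Agent.Lib.MP_bc213e_ag.DC
open scoped NNReal

theorem corel_geo {p m k : ℕ} (h : p = m * k + 1) (e : ℕ) :
    p ^ e = m * (k * ∑ i ∈ Finset.range e, p ^ i) + 1 := by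
  have := geom_sum_mul_add (m * k) e
  rw [← h] at this
  rw [← this]; ring

theorem corel_exp {κ R N : Type} [Field κ] [PerfectField κ] [CommRing R] [Algebra κ R] [Fintype N]
    [DecidableEq N] {p : ℕ} [Fact p.Prime] [CharP κ p] [CharP R p] (t : N → R)
    (ht : ∀ y : R, ∃ s ∈ Algebra.adjoin κ (Set.range t), IsUnit s ∧
      s * y ∈ Algebra.adjoin κ (Set.range t)) (y : R) :
    ∃ g : (N → Fin (p ^ 1)) → R, y = ∑ γ, g γ ^ p * ∏ i, t i ^ (γ i : ℕ) := by
  obtain ⟨_, hs, ⟨u, rfl⟩, hy⟩ := ht y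
  have key : ∀ z ∈ Algebra.adjoin κ (Set.range t),
      z ∈ Subring.closure (Set.range t ∪ Set.range fun g : R => g ^ p ^ 1) := fun z hz => by
    induction hz using Algebra.adjoin_induction with
    | mem x hx => exact Subring.subset_closure (Or.inl hx)
    | algebraMap k =>
      obtain ⟨k', rfl⟩ := surjective_frobenius κ p k
      exact Subring.subset_closure (Or.inr ⟨algebraMap κ R k', by simp [frobenius_def]⟩)
    | add x y _ _ hx hy => exact add_mem hx hy
    | mul x y _ _ hx hy => exact mul_mem hx hy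
  obtain ⟨g, hg⟩ := expand_of_gen t 1 (key _ (mul_mem (pow_mem hs (p - 1)) hy))
  refine ⟨fun γ => ↑u⁻¹ * g γ, ?_⟩
  have e : y = (↑u⁻¹ : R) ^ p * ((u : R) ^ (p - 1) * (u * y)) := by
    rw [← mul_assoc (_ ^ (p - 1)), ← pow_succ, Nat.sub_add_cancel (Fact.out : p.Prime).pos,
      ← mul_assoc, ← mul_pow, Units.inv_mul, one_pow, one_mul]
  rw [e, hg, Finset.mul_sum]
  exact Finset.sum_congr rfl fun γ _ => by
    rw [show g γ ^ p ^ 1 = g γ ^ p by rw [pow_one], mul_pow, mul_assoc]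

/-- Sketch: `SFRi.domain_normal`; `sf 1` gives `e > 0`, `a = a' * w ^ N`, `ψ` with `ψ a = 1`, where
`N = n * Σ`, `Σ = ∑ i < e, p ^ i`, `p ^ e - 1 = q * N = r * (n₀ * Σ)` (`Nat.geomSum_eq`,
`Commute.geom_sum₂`). `exists_frac_lin`, `exists_rep`, `cart_mem` give
`ψ = Φ^[e] (θ ^ (n₀ * Σ) * c' * ·)`, so `1 = Ψ^[e] (c' * a')` for `Ψ z = Φ (θ ^ n₀ * w ^ n * z)`
(`iter_twist`). If the claim fails, `Ψ` maps `R` into the maximal ideal: `y = (s⁻¹) ^ p * z` with
`z = s ^ (p - 1) * (s * y)` in `κ[t]`, which lies in the ring generated by `t` and the `p`-th powers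
(`κ` is perfect), `expand_of_gen` with exponent `1`, `Φ_mul`. -/
theorem core_loc {κ R ι N : Type} [Field κ] [PerfectField κ] [CommRing R] [IsLocalRing R]
    [IsDomain R] [IsNoetherianRing R] [Algebra κ R] [Fintype ι] [DecidableEq ι]
    [Fintype N] {p : ℕ} [Fact p.Prime] [CharP κ p] (c : Car κ (FractionRing R) ι p)
    (hn : Algebra.trdeg κ (FractionRing R) ≤ Fintype.card ι) (t : N → R)
    (ht : ∀ y : R, ∃ s ∈ Algebra.adjoin κ (Set.range t), IsUnit s ∧
      s * y ∈ Algebra.adjoin κ (Set.range t))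
    {θ : FractionRing R} (hθ : θ ≠ 0) {r n₀ q n : ℕ} (hr : 0 < r) (hq : 0 < q)
    (hp : p = r * n₀ + 1) (hp' : p = q * n + 1) (δ : (ι → N) → R)
    (hδ : ∀ s, algebraMap R (FractionRing R) (δ s) =
      θ * Jac c.der (fun l => algebraMap R _ (t (s l))) ^ r)
    (w : R) (sf : SFRi p (Ideal.span (Set.range δ)) r (Ideal.span {w}) (q : ℝ≥0)⁻¹) :
    ∃ γ : N → ℕ, (∀ i, γ i < p) ∧ ∀ y ∈ IsLocalRing.maximalIdeal R,
      c.Φ (θ ^ n₀ * algebraMap R _ (w ^ n * ∏ i, t i ^ γ i)) ≠ algebraMap R _ y := by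
  classical
  have pp : p.Prime := Fact.out
  have : CharP R p := charP_of_injective_algebraMap (algebraMap κ R).injective p
  have : CharP (FractionRing R) p :=
    charP_of_injective_algebraMap (algebraMap κ (FractionRing R)).injective p
  have := (sf.domain_normal pp.two_le).2
  obtain ⟨e, he, -, a, ha, ψ, hψ, h1⟩ := sf 1 (one_mem _)
  have hc : ⌈(((q : ℝ≥0)⁻¹ : ℝ≥0) : ℝ) * ((p : ℝ) ^ e - 1)⌉₊ = n * ∑ i ∈ Finset.range e, p ^ i := by
    have h2 : (p : ℝ) ^ e = q * ((n * ∑ i ∈ Finset.range e, p ^ i : ℕ) : ℝ) + 1 := by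
      exact_mod_cast corel_geo hp' e
    rw [h2, add_sub_cancel_right, NNReal.coe_inv, NNReal.coe_natCast,
      inv_mul_cancel_left₀ (by exact_mod_cast hq.ne'), Nat.ceil_natCast]
  rw [hc, Ideal.span_singleton_pow, Ideal.mem_span_singleton'] at ha
  obtain ⟨a', rfl⟩ := ha
  obtain ⟨ψ', l1, l2⟩ := exists_frac_lin (F := FractionRing R) (pow_pos pp.pos e) ψ hψ.lin
  obtain ⟨c₀, hc₀⟩ := exists_rep c e ψ' l1
  have hr' : ∀ y, algebraMap R _ (ψ y) = c.Φ^[e] (c₀ * algebraMap R (FractionRing R) y) :=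
    fun y => (l2 y).symm.trans (hc₀ _)
  obtain ⟨c', rfl⟩ := cart_mem c hn t ht hθ hr (corel_geo hp e) δ hδ hψ hr'
  by_contra con
  push Not at con
  have step : ∀ y : R, ∃ m ∈ IsLocalRing.maximalIdeal R,
      c.Φ (θ ^ n₀ * algebraMap R _ w ^ n * algebraMap R _ y) = algebraMap R _ m := fun y => by
    obtain ⟨g, rfl⟩ := corel_exp (p := p) t ht y
    choose m hm hm' using fun γ : N → Fin (p ^ 1) =>
      con (fun i => γ i) fun i => (γ i).2.trans_eq (pow_one p)
    refine ⟨∑ γ, g γ * m γ, Ideal.sum_mem _ fun γ _ => Ideal.mul_mem_left _ _ (hm γ), ?_⟩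
    rw [map_sum, map_sum, Finset.mul_sum, map_sum]
    refine Finset.sum_congr rfl fun γ _ => ?_
    rw [map_mul _ (g γ), ← hm', ← c.Φ_mul]
    simp only [map_mul, map_pow]
    congr 1
    ring
  have it : ∀ (k : ℕ) (y : R), ∃ m ∈ IsLocalRing.maximalIdeal R,
      (fun z => c.Φ (θ ^ n₀ * algebraMap R _ w ^ n * z))^[k + 1] (algebraMap R _ y) =
        algebraMap R _ m := fun k => by
    induction k with
    | zero => exact step
    | succ k ih =>
      intro y
      obtain ⟨m, -, hm⟩ := step y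
      rw [Function.iterate_succ_apply, hm]
      exact ih m
  obtain ⟨m, hm, hm'⟩ := it (e - 1) (c' * a')
  rw [Nat.sub_add_cancel he, iter_twist] at hm'
  have h2 := hr' (1 * (a' * w ^ (n * ∑ i ∈ Finset.range e, p ^ i)))
  rw [h1] at h2
  have h3 : (1 : R) = m := IsFractionRing.injective R (FractionRing R) (h2.trans (Eq.trans (by
    simp only [map_mul, map_pow, map_one, pow_mul, mul_pow]
    congr 1
    ring) hm'))
  exact IsLocalRing.notMem_maximalIdeal.2 isUnit_one (h3 ▸ hm)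

end Pool.Agent.Lib.MP_bc213e_ag.KL
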