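import Pool.Agent.Lib.MP_4287a9_ag.D1

/-! Irreducibility of a reduction. -/

namespace Pool.Agent.Lib.MP_bc213e_ag.KL

open Pool.Agent.Lib.MP_4287a9_ag (ND)

variable {κ P : Type} [Field κ] [CommRing P] [Algebra κ P] {φ C : ℕ}

open MvPolynomial in
theorem inj_deg {σ : Type} {Q F : Polynomial (MvPolynomial σ κ)} (h : Q ∣ F) (h0 : F ≠ 0) {N : ℕ}
    (hN : ∀ i, (F.coeff i).totalDegree + F.natDegree ≤ N) (i : ℕ) :
    (Q.coeff i).totalDegree ≤ N := by
  obtain ⟨q, rfl⟩ := (optionEquivLeft κ σ).surjective Q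
  obtain ⟨f, rfl⟩ := (optionEquivLeft κ σ).surjective F
  refine (totalDegree_coeff_optionEquivLeft_le κ σ q i).trans
    ((totalDegree_le_of_dvd_of_isDomain ((map_dvd_iff _).1 h) fun e => h0 (by simp [e])).trans
      (Finset.sup_le fun a ha => le_trans ?_ (hN (a none))))
  rw [mem_support_iff, ← optionEquivLeft_coeff_some_coeff_none] at ha
  rw [Finsupp.sum_option_index a (fun _ e => e) (fun _ => rfl) fun _ _ _ => rfl, add_comm]
  exact add_le_add (le_totalDegree (mem_support_iff.2 ha))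
    (Polynomial.le_natDegree_of_ne_zero fun e => ha (by rw [e, coeff_zero]))

open MvPolynomial in
theorem inj_lin {L : Type} [CommRing L] [Algebra κ L] (y : Fin φ → L) (θ : L) {N n : ℕ}
    (hl : LinearIndependent κ fun a : {a : Fin φ →₀ ℕ // a.degree ≤ N} × Fin n =>
      (∏ i, y i ^ a.1.1 i) * θ ^ (a.2 : ℕ)) {Q : Polynomial (MvPolynomial (Fin φ) κ)}
    (hn : Q.natDegree < n) (hN : ∀ i, (Q.coeff i).totalDegree ≤ N)
    (h : Q.eval₂ (aeval y).toRingHom θ = 0) : Q = 0 := by
  have hf := Finsupp.finite_of_degree_le (σ := Fin φ) N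
  have : Fintype {a : Fin φ →₀ ℕ // a.degree ≤ N} := hf.fintype
  have hs : ∀ i, ∀ a ∈ (Q.coeff i).support, a.degree ≤ N := fun i a ha =>
    (le_totalDegree ha).trans (hN i)
  have key := Fintype.linearIndependent_iff.1 hl (fun a => coeff a.1.1 (Q.coeff a.2)) (by
    rw [← h, Polynomial.eval₂_eq_sum_range' _ hn, Finset.sum_range, Fintype.sum_prod_type_right]
    refine Finset.sum_congr rfl fun j _ => ?_
    rw [AlgHom.toRingHom_eq_coe, RingHom.coe_coe, aeval_def, eval₂_eq', Finset.sum_mul,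
      Finset.sum_subset (s₂ := hf.toFinset) (fun a ha => hf.mem_toFinset.2 (hs j a ha))
        fun a _ ha => by rw [notMem_support_iff.1 ha, map_zero, zero_mul, zero_mul],
      Finset.sum_subtype hf.toFinset (p := fun a => a.degree ≤ N) fun a => hf.mem_toFinset]
    exact Finset.sum_congr rfl fun a _ => by rw [Algebra.smul_def, mul_assoc])
  ext j a
  by_contra ha
  exact ha (key (⟨a, hs j a (mem_support_iff.2 ha)⟩, ⟨j, (Polynomial.le_natDegree_of_ne_zero
    fun e => ha (by rw [e]; rfl)).trans_lt hn⟩))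

/-- Sketch: make `L` an algebra over `A = MvPolynomial (Fin φ) κ` by `β ∘ d.ax` (injective by `hx`).
`Q = minpoly A (β d.θ)` divides `d.P` (`minpoly.isIntegrallyClosed_dvd`). The coefficients of a
monic factor `Q` of `d.P` have total degree at most `N`: pass to `MvPolynomial (Option (Fin φ)) κ`
(`optionEquivLeft`, `totalDegree_mul_of_isDomain` or `totalDegree_le_of_dvd_of_isDomain`). If
`natDegree Q < natDegree d.P`, the relation `Q (β θ) = 0` contradicts `hl`. So `Q = d.P`. If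
`β w = 0`, take `f` with `d.ev f = d.ax d.c0 * w` (`cond`); `Q ∣ f`, so `d.ev f = 0` (`root`) and
`w = 0` since `d.ax d.c0` divides the regular element `d.c1`. -/
theorem nd_inj {L : Type} [CommRing L] [IsDomain L] [Algebra κ L] (d : ND κ P φ C)
    {m 𝔡 : Ideal P} (hd : d.Good m 𝔡) (β : P →ₐ[κ] L) (hx : AlgebraicIndependent κ (β ∘ d.x))
    {N : ℕ} (hN : ∀ i, (d.P.coeff i).totalDegree + d.P.natDegree ≤ N)
    (hl : LinearIndependent κ fun a : {a : Fin φ →₀ ℕ // a.degree ≤ N} × Fin d.P.natDegree =>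
      (∏ i, β (d.x i) ^ a.1.1 i) * β d.θ ^ (a.2 : ℕ)) : Function.Injective β := by
  let _ : Algebra (MvPolynomial (Fin φ) κ) L := (MvPolynomial.aeval (β ∘ d.x)).toRingHom.toAlgebra
  have : FaithfulSMul (MvPolynomial (Fin φ) κ) L :=
    (faithfulSMul_iff_algebraMap_injective _ _).2 hx
  have e : ∀ f, Polynomial.aeval (β d.θ) f = β (d.ev f) := fun f => by
    have h1 : (β : P →+* L).comp d.ax = algebraMap (MvPolynomial (Fin φ) κ) L := by
      refine RingHom.ext fun g => ?_
      exact (MvPolynomial.comp_aeval_apply d.x β g).trans rfl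
    rw [Polynomial.aeval_def, ← h1]
    exact (Polynomial.hom_eval₂ f d.ax (β : P →+* L) d.θ).symm
  have h0 : Polynomial.aeval (β d.θ) d.P = 0 := by rw [e, hd.root, map_zero]
  have hi : IsIntegral (MvPolynomial (Fin φ) κ) (β d.θ) := ⟨d.P, hd.monic, h0⟩
  have hdv := minpoly.isIntegrallyClosed_dvd hi h0
  have hQ : d.P = minpoly (MvPolynomial (Fin φ) κ) (β d.θ) :=
    Polynomial.eq_of_monic_of_dvd_of_natDegree_le (minpoly.monic hi) hd.monic hdv
      (not_lt.1 fun hn => minpoly.ne_zero hi (inj_lin (fun i => β (d.x i)) (β d.θ) hl hn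
        (inj_deg hdv hd.monic.ne_zero hN) (minpoly.aeval _ _)))
  refine (injective_iff_map_eq_zero β).2 fun w hw => ?_
  obtain ⟨f, hf⟩ := hd.cond w
  obtain ⟨g, rfl⟩ : d.P ∣ f :=
    hQ ▸ minpoly.isIntegrallyClosed_dvd hi (by rw [e, hf, map_mul, hw, mul_zero])
  rw [map_mul, hd.root, zero_mul] at hf
  refine (mem_nonZeroDivisors_iff.1 hd.reg).2 w ?_
  rw [ND.c1]
  linear_combination -(d.ev (Polynomial.derivative d.P) * d.γ) * hf

end Pool.Agent.Lib.MP_bc213e_ag.KL
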