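import Pool.Agent.Lib.MP_bc213e_ag.DC.Car

/-! The Jacobian criterion over a perfect field. -/

namespace Pool.Agent.Lib.MP_bc213e_ag.KL

open MvPolynomial
open Pool.Agent.Lib.MP_bc213e_ag.DC (Jac)

theorem jc_deg {κ σ : Type} [CommRing κ] {P : MvPolynomial σ κ} (h : 0 < P.totalDegree) (i : σ) :
    (pderiv i P).totalDegree < P.totalDegree := by
  refine (Finset.sup_lt_iff h).2 fun m hm => ?_
  rw [mem_support_iff, coeff_pderiv] at hm
  have h1 := le_totalDegree (mem_support_iff.2 (left_ne_zero_of_mul hm))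
  rw [Finsupp.sum_add_index' (fun _ => rfl) fun _ _ _ => rfl, Finsupp.sum_single_index rfl] at h1
  exact h1

theorem jc_exp {κ σ : Type} [Field κ] (P : MvPolynomial σ κ) (h : ∀ i, pderiv i P = 0) :
    ∀ m ∈ P.support, ∀ i, ((m i : ℕ) : κ) = 0 := by
  classical
  intro m hm i
  by_cases h0 : m i = 0
  · rw [h0, Nat.cast_zero]
  have h1 : m - Finsupp.single i 1 + Finsupp.single i 1 = m :=
    tsub_add_cancel_of_le (Finsupp.single_le_iff.2 (Nat.pos_of_ne_zero h0))
  have h2 := coeff_pderiv (i := i) P (m - Finsupp.single i 1)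
  rw [h i, coeff_zero, h1] at h2
  have h3 := (mul_eq_zero.1 h2.symm).resolve_left (mem_support_iff.1 hm)
  rw [← h1, Finsupp.add_apply, Finsupp.single_eq_same, Nat.cast_add, Nat.cast_one]
  exact h3

theorem jc_root {κ σ : Type} [Field κ] [PerfectField κ] (p : ℕ) [Fact p.Prime] [CharP κ p]
    (P : MvPolynomial σ κ) (h : ∀ m ∈ P.support, ∀ i, p ∣ m i) : ∃ Q, P = Q ^ p := by
  choose r hr using surjective_frobenius κ p
  refine ⟨∑ m ∈ P.support, monomial (m.mapRange (· / p) (Nat.zero_div p)) (r (coeff m P)), ?_⟩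
  rw [sum_pow_char]
  refine P.as_sum.trans (Finset.sum_congr rfl fun m hm => ?_)
  rw [monomial_pow, ← frobenius_def, hr]
  congr 2
  ext i
  rw [Finsupp.smul_apply, Finsupp.mapRange_apply, smul_eq_mul, Nat.mul_div_cancel' (h m hm i)]

/-- Sketch: take `P ≠ 0` in `𝔭` of least total degree; it is not constant. If every `pderiv i P`
is in `𝔭` then every `pderiv i P` is `0` (smaller degree). So every exponent of a monomial of `P`
is `0` in `κ`. With `p = ringExpChar κ`: if `p = 1` then `P` is constant; otherwise all exponents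
are divisible by `p`, and `P = Q ^ p` (perfect field, `Q = ∑ root (coeff) X ^ (α / p)`), `Q ∈ 𝔭` has
smaller degree. -/
theorem jc {κ σ : Type} [Field κ] [PerfectField κ] (𝔭 : Ideal (MvPolynomial σ κ)) [𝔭.IsPrime]
    (h : 𝔭 ≠ ⊥) : ∃ P ∈ 𝔭, ∃ i, pderiv i P ∉ 𝔭 := by
  by_contra hc
  replace hc : ∀ P ∈ 𝔭, ∀ i, pderiv i P ∈ 𝔭 := fun P hP i => not_not.1 fun h => hc ⟨P, hP, i, h⟩
  have key : ∀ n, ∀ P ∈ 𝔭, P.totalDegree < n → P = 0 := by
    intro n
    induction n with
    | zero => exact fun P _ h => absurd h (Nat.not_lt_zero _)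
    | succ n ih =>
      intro P hP hn
      by_contra h0
      have h1 : 0 < P.totalDegree := Nat.pos_of_ne_zero fun e => by
        rw [totalDegree_eq_zero_iff_eq_C] at e
        refine (‹𝔭.IsPrime›).ne_top (𝔭.eq_top_of_isUnit_mem hP ?_)
        rw [e] at h0 ⊢
        exact (IsUnit.mk0 _ fun e' => h0 (by rw [e', C_0])).map C
      have h2 := jc_exp P fun i => ih _ (hc P hP i) (by have := jc_deg h1 i; omega)
      obtain ⟨p, hp⟩ := ExpChar.exists κ
      cases hp with
      | zero =>
        refine h1.ne' (Nat.le_zero.1 (Finset.sup_le fun m hm => ?_))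
        rw [show m = 0 from Finsupp.ext fun i => Nat.cast_eq_zero.1 (h2 m hm i)]
        simp
      | prime hp =>
        have := Fact.mk hp
        obtain ⟨Q, rfl⟩ := jc_root p P fun m hm i => (CharP.cast_eq_zero_iff κ p _).1 (h2 m hm i)
        have h3 : Q ≠ 0 := fun e => h0 (by rw [e, zero_pow hp.ne_zero])
        obtain ⟨q, rfl⟩ : ∃ q, p = q + 1 + 1 := ⟨p - 2, by have := hp.two_le; omega⟩
        refine h3 (ih Q (Ideal.IsPrime.mem_of_pow_mem ‹_› _ hP) ?_)
        have h4 := totalDegree_pow Q (q + 1 + 1)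
        have h5 : 0 < Q.totalDegree := Nat.pos_of_ne_zero fun e => by
          rw [e] at h4
          omega
        rw [pow_succ, pow_succ, totalDegree_mul_of_isDomain (mul_ne_zero (pow_ne_zero _ h3) h3) h3,
          totalDegree_mul_of_isDomain (pow_ne_zero _ h3) h3] at hn
        omega
  exact h (eq_bot_iff.2 fun P hP => key _ P hP (Nat.lt_succ_self _))

/-- The chain rule. -/
theorem der_aeval {κ A σ : Type} [CommRing κ] [CommRing A] [Algebra κ A] [Fintype σ]
    (D : Derivation κ A A) (u : σ → A) (P : MvPolynomial σ κ) :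
    D (aeval u P) = ∑ i, aeval u (pderiv i P) * D (u i) := by
  classical
  induction P using MvPolynomial.induction_on with
  | C a => simp
  | add f g hf hg => simp only [map_add, hf, hg, add_mul, Finset.sum_add_distrib]
  | mul_X f i hf =>
    simp only [map_mul, aeval_X, Derivation.leibniz, hf, smul_eq_mul, map_add, add_mul,
      Finset.sum_add_distrib, pderiv_X, Pi.single_apply, apply_ite (aeval u), map_zero,
      mul_ite, mul_one, mul_zero, ite_mul, zero_mul, Finset.sum_ite_eq, Finset.mem_univ, if_true,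
      Finset.mul_sum, mul_assoc]

/-- Replace `u i` by `P (u)`. Sketch: `DC.car_exD`, `der_aeval`, `DC.car_eq`. -/
theorem Jac_update_aeval {κ A σ : Type} [CommRing κ] [CommRing A] [Algebra κ A] [Fintype σ]
    [DecidableEq σ] (D : σ → Derivation κ A A) (u : σ → A) (i : σ) (P : MvPolynomial σ κ) :
    Jac D (Function.update u i (aeval u P)) = aeval u (pderiv i P) * Jac D u := by
  obtain ⟨E, hE⟩ := DC.car_exD D u i
  rw [hE, der_aeval, Finset.sum_eq_single i (fun j _ hj => ?_) fun h => absurd (Finset.mem_univ i) h,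
    ← hE, Function.update_eq_self]
  rw [← hE, DC.car_eq _ hj (by rw [Function.update_of_ne hj, Function.update_self]), mul_zero]

/-- Sketch: `jc` for the kernel of `aeval u`, then `Jac_update_aeval` (a zero column). -/
theorem algInd_of_Jac {κ A σ : Type} [Field κ] [PerfectField κ] [CommRing A] [IsDomain A]
    [Algebra κ A] [Fintype σ] [DecidableEq σ] (D : σ → Derivation κ A A) {u : σ → A}
    (h : Jac D u ≠ 0) : AlgebraicIndependent κ u := by
  rw [algebraicIndependent_iff]
  by_contra hc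
  have : (RingHom.ker (aeval u : MvPolynomial σ κ →ₐ[κ] A)).IsPrime := RingHom.ker_isPrime _
  obtain ⟨P, hP, i, hi⟩ := jc (RingHom.ker (aeval u : MvPolynomial σ κ →ₐ[κ] A)) fun e =>
    hc fun P hP => Ideal.mem_bot.1 (e ▸ RingHom.mem_ker.2 hP)
  obtain ⟨E, hE⟩ := DC.car_exD D u i
  have h1 := Jac_update_aeval D u i P
  rw [hE, RingHom.mem_ker.1 hP, map_zero] at h1
  exact mul_ne_zero (mt RingHom.mem_ker.2 hi) h h1.symm

end Pool.Agent.Lib.MP_bc213e_ag.KL
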