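import Pool.Agent.Lib.MP_4287a9_ag.TDa

/-! Consequences of the normalisation data. -/

namespace Pool.Agent.Lib.MP_bc213e_ag.KL

open Pool.Agent.Lib.MP_4287a9_ag (ND T1 frobSpan pow_mul_mem_frobSpan aeval_mem_frobSpan)

variable {κ P : Type} [Field κ] [CommRing P] [Algebra κ P] {φ C : ℕ}

/-- Sketch: as `ND.Good.t1` (file `TDa`) without the localisation: `ND.delta_mul_mem`,
`aeval_mem_frobSpan`, `pow_mul_mem_frobSpan`. -/
theorem nd_t1 {p : ℕ} [Fact p.Prime] [Finite κ] [CharP κ p] [Nontrivial P] (d : ND κ P φ C)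
    {m 𝔡 : Ideal P} (hd : d.Good m 𝔡) : T1 p (d.c1 ^ 2) d.x := by
  have hp : p.Prime := Fact.out
  have : CharP P p := charP_of_injective_algebraMap (algebraMap κ P).injective p
  obtain ⟨k, hk⟩ : ∃ k, p ^ 1 = k + 1 :=
    Nat.exists_eq_succ_of_ne_zero (pow_ne_zero 1 hp.ne_zero)
  have h1 : T1 (p ^ 1) (d.c1 ^ 2) d.x := by
    intro w
    obtain ⟨f, hf⟩ := hd.cond (d.ax d.c0 ^ k * w)
    have h2 : d.ev (Polynomial.derivative d.P) ^ p ^ 1 * d.ev f ∈ frobSpan p 1 d.x := by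
      refine (AddSubgroup.closure_le _).2 ?_ (d.delta_mul_mem hd.monic hd.root 1 f)
      rintro _ ⟨a, g, rfl⟩
      rw [mul_comm]
      exact pow_mul_mem_frobSpan _ (aeval_mem_frobSpan d.x a)
    have h3 := pow_mul_mem_frobSpan (d.c1 * d.γ) h2
    have e : (d.c1 ^ 2) ^ p ^ 1 * w =
        (d.c1 * d.γ) ^ p ^ 1 * (d.ev (Polynomial.derivative d.P) ^ p ^ 1 * d.ev f) := by
      rw [hf, ND.c1, hk]
      ring
    rw [e]
    exact h3
  rwa [pow_one] at h1

/-- Sketch: `span` makes `P` a finite module over the polynomial ring. -/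
theorem nd_int (d : ND κ P φ C) {m 𝔡 : Ideal P} (hd : d.Good m 𝔡) (a : P) :
    IsIntegral (Algebra.adjoin κ (Set.range d.x)) a := by
  have : Module.Finite (Algebra.adjoin κ (Set.range d.x)) P := by
    refine ⟨Submodule.fg_def.2 ⟨Set.range d.ω, Set.finite_range _, top_unique fun w _ => ?_⟩⟩
    obtain ⟨a, rfl⟩ := hd.span w
    refine sum_mem fun i _ => ?_
    have h : d.ax (a i) ∈ Algebra.adjoin κ (Set.range d.x) := by
      rw [Algebra.adjoin_range_eq_range_aeval]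
      exact ⟨a i, rfl⟩
    exact Submodule.smul_mem _ (⟨_, h⟩ : Algebra.adjoin κ (Set.range d.x))
      (Submodule.subset_span ⟨i, rfl⟩)
  exact Algebra.IsIntegral.isIntegral a

end Pool.Agent.Lib.MP_bc213e_ag.KL
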